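import Mathlib
import Pool.Agent.HilbP1.P5

set_option autoImplicit false

/-! Interpolation of arcs at finitely many points. -/

namespace Pool.Agent.Y756.HB

open MP4403b8

theorem close' (a : ℂ) (D W : Polynomial ℂ) (hD : D = (Polynomial.X - Polynomial.C a) * W)
    (hW : W.eval a ≠ 0) (N : ℕ) (x : RatFunc ℂ) (B E : Polynomial ℂ)
    (hB : ∃ z ∈ Oc a, j0 B - j0 (D ^ N) * x = j0 ((Polynomial.X - Polynomial.C a) ^ (N + 2)) * z) :
    ∃ z ∈ Oc a, (j0 (B + D ^ (N + 2) * E) / j0 (D ^ N)) - x =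
      j0 ((Polynomial.X - Polynomial.C a) ^ 2) * z := by
  obtain ⟨z, hz, h⟩ := hB
  have hb : (W ^ N : Polynomial ℂ).eval a ≠ 0 := by
    rw [Polynomial.eval_pow]
    exact pow_ne_zero _ hW
  have hW0 : W ≠ 0 := by
    rintro rfl
    simp at hW
  have h1 : j0 ((Polynomial.X - Polynomial.C a) ^ N) ≠ 0 :=
    j0_ne (pow_ne_zero _ (Polynomial.X_sub_C_ne_zero a))
  have h2 : j0 (W ^ N) ≠ 0 := j0_ne (pow_ne_zero _ hW0)
  refine ⟨z * (j0 (W ^ N))⁻¹ + j0 (W ^ 2 * E),
    add_mem (mul_mem hz (j0_inv_mem a _ hb)) (j0_mem a _), ?_⟩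
  have h3 : j0 B = j0 (D ^ N) * x +
      j0 ((Polynomial.X - Polynomial.C a) ^ (N + 2)) * z := by rw [← h]; ring
  rw [map_add, h3]
  rw [hD]
  simp only [mul_pow, map_mul, pow_add] at *
  field_simp
  ring

/-- the monic polynomial with simple zeros at the given points -/
noncomputable def DD {r : Type} [Fintype r] (pt : r → ℂ) : Polynomial ℂ :=
  ∏ j, (Polynomial.X - Polynomial.C (pt j))

lemma DD_split {r : Type} [Fintype r] (pt : r → ℂ) (hpt : Function.Injective pt) (j : r) :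
    ∃ W : Polynomial ℂ, DD pt = (Polynomial.X - Polynomial.C (pt j)) * W ∧ W.eval (pt j) ≠ 0 := by
  classical
  refine ⟨∏ i ∈ Finset.univ.erase j, (Polynomial.X - Polynomial.C (pt i)), ?_, ?_⟩
  · unfold DD
    rw [Finset.mul_prod_erase Finset.univ (fun i => Polynomial.X - Polynomial.C (pt i))
      (Finset.mem_univ j)]
  · rw [Polynomial.eval_prod, Finset.prod_ne_zero_iff]
    intro i hi
    rw [Polynomial.eval_sub, Polynomial.eval_X, Polynomial.eval_C]
    exact sub_ne_zero.mpr fun h => (Finset.mem_erase.1 hi).1 (hpt h.symm)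

/-- Interpolation of arcs at finitely many points. -/
theorem interpolate' (n : ℕ) {r : Type} [Fintype r] (pt : r → ℂ) (hpt : Function.Injective pt)
    (ι : r → Type) (G0 G1 : (j : r) → ι j → MvPolynomial (Fin 2) ℂ)
    (h : ∀ j, Arc n (pt j) (G0 j) (G1 j)) :
    ∃ (N M : ℕ) (B : ℕ → Polynomial ℂ), ∀ E : ℕ → Polynomial ℂ,
      ∀ F : Polynomial (RatFunc ℂ),
      F = ∑ i ∈ Finset.Ico 1 n, Polynomial.monomial i
        (j0 (B i + DD pt ^ M * E i) / j0 (DD pt ^ N)) →
      ∀ j, ∀ i, Special (fam j0 n F) (pt j) (G0 j i) (G1 j i) := by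
  classical
  choose f hf0 hfn g hg hgc using h
  -- exponent
  have hN : ∃ N : ℕ, ∀ j, ∀ i < n, j0 (DD pt ^ N) * (f j).coeff i ∈ Oc (pt j) := by
    have ha : ∀ j i, ∃ m, ∀ m', m ≤ m' →
        j0 ((Polynomial.X - Polynomial.C (pt j)) ^ m') * (f j).coeff i ∈ Oc (pt j) :=
      fun j i => exists_pow_mem (pt j) _
    choose ma hma using ha
    refine ⟨Finset.univ.sup fun j => (Finset.range n).sup (ma j), fun j i hi => ?_⟩
    have h1 : ma j i ≤ (Finset.range n).sup (ma j) := Finset.le_sup (Finset.mem_range.2 hi)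
    have h2 : (Finset.range n).sup (ma j) ≤ Finset.univ.sup fun j => (Finset.range n).sup (ma j) :=
      Finset.le_sup (f := fun j => (Finset.range n).sup (ma j)) (Finset.mem_univ j)
    obtain ⟨W, hW, -⟩ := DD_split pt hpt j
    rw [hW, mul_pow, map_mul, mul_comm (j0 ((Polynomial.X - Polynomial.C (pt j)) ^ _)), mul_assoc]
    exact mul_mem (j0_mem _ _) (hma j i _ (h1.trans h2))
  obtain ⟨N, hN⟩ := hN
  have hB : ∀ i, ∃ B : Polynomial ℂ, i < n → ∀ j,
      ∃ z ∈ Oc (pt j), j0 B - j0 (DD pt ^ N) * (f j).coeff i =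
        j0 ((Polynomial.X - Polynomial.C (pt j)) ^ (N + 2)) * z := by
    intro i
    by_cases hi : i < n
    · have ha := fun j => approx (pt j) _ (hN j i hi) (N + 2)
      choose u z hz hu using ha
      have hco : Pairwise (Function.onFun IsCoprime fun j =>
          (Ideal.span {(Polynomial.X - Polynomial.C (pt j)) ^ (N + 2)} : Ideal (Polynomial ℂ))) := by
        intro j k hjk
        change IsCoprime (Ideal.span {(Polynomial.X - Polynomial.C (pt j)) ^ (N + 2)})
            (Ideal.span {(Polynomial.X - Polynomial.C (pt k)) ^ (N + 2)})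
        rw [Ideal.isCoprime_span_singleton_iff]
        apply IsCoprime.pow
        exact Polynomial.isCoprime_X_sub_C_of_isUnit_sub
          (isUnit_iff_ne_zero.mpr (sub_ne_zero.mpr fun h => hjk (hpt h)))
      obtain ⟨B, hB⟩ := Ideal.exists_forall_sub_mem_ideal hco u
      refine ⟨B, fun _ j => ?_⟩
      obtain ⟨s, hs⟩ := Ideal.mem_span_singleton.1 (hB j)
      refine ⟨j0 s + z j, add_mem (j0_mem _ _) (hz j), ?_⟩
      rw [mul_add, ← hu j, ← map_mul, ← hs, map_sub]
      ring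
    · exact ⟨0, fun h => absurd h hi⟩
  choose B hB using hB
  refine ⟨N, N + 2, B, ?_⟩
  intro E F hF
  have hFc : ∀ i, F.coeff i = if i ∈ Finset.Ico 1 n then
      (j0 (B i + DD pt ^ (N + 2) * E i) / j0 (DD pt ^ N)) else 0 := by
    intro i
    rw [hF, Polynomial.finsetSum_coeff]
    simp only [Polynomial.coeff_monomial]
    rw [Finset.sum_ite_eq']
  have hzero : ∀ (f : Polynomial (RatFunc ℂ)), f.coeff 0 = 0 → f.natDegree < n →
      ∀ i, i ∉ Finset.Ico 1 n → f.coeff i = 0 := by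
    intro f h0 hn i hi
    rw [Finset.mem_Ico, not_and_or] at hi
    rcases hi with hi | hi
    · have : i = 0 := by omega
      rw [this, h0]
    · exact Polynomial.coeff_eq_zero_of_natDegree_lt (by omega)
  intro j i
  refine point n (pt j) (G0 j i) (G1 j i) (f j) F ?_ (g j i) (hg j i) (hgc j i)
  intro k
  rw [hFc]
  split_ifs with hk
  · rw [Finset.mem_Ico] at hk
    obtain ⟨W, hW, hW'⟩ := DD_split pt hpt j
    exact close' (pt j) _ W hW hW' N _ _ _ (hB k hk.2 j)
  · refine ⟨0, zero_mem _, ?_⟩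
    rw [hzero (f j) (hf0 j) (hfn j) k hk]; simp

end Pool.Agent.Y756.HB
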