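import Mathlib
import Pool.Agent.Y756.HB.Main

set_option autoImplicit false

/-! A smooth rational curve through the three monomial ideals of colength three. -/

namespace Pool.Agent.Y756.HB

open MP4403b8

/-- the numerators -/
noncomputable def P3 : ℕ → Polynomial ℂ := fun i =>
  if i = 1 then Polynomial.X * (Polynomial.X - 1) else Polynomial.X - 1

/-- the parameter `(t - 1) y + ((t - 1)/t) y^2` -/
noncomputable def F3 : Polynomial (RatFunc ℂ) :=
  ∑ i ∈ Finset.Ico 1 3, Polynomial.monomial i (j0 (P3 i) / j0 Polynomial.X)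

lemma F3_eq : F3 = Polynomial.C (RatFunc.X - 1) * Polynomial.X +
    Polynomial.C ((RatFunc.X - 1) / RatFunc.X) * Polynomial.X ^ 2 := by
  have h0 : (RatFunc.X : RatFunc ℂ) ≠ 0 := RatFunc.X_ne_zero
  have h1 : (Finset.Ico 1 3 : Finset ℕ) = {1, 2} := by decide
  unfold F3 P3
  rw [h1, Finset.sum_pair (by norm_num)]
  simp only [if_true, map_mul, map_sub, map_one, j0_X]
  rw [if_neg (by norm_num)]
  rw [map_sub, map_one, j0_X, mul_div_cancel_left₀ _ h0]
  rw [← Polynomial.C_mul_X_pow_eq_monomial, ← Polynomial.C_mul_X_pow_eq_monomial, pow_one,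
    map_sub, map_one]

lemma F3_zero : F3.coeff 0 = 0 := by
  rw [F3_eq]
  simp

/-- the triangle ideal -/
noncomputable def Tri : Ideal (MvPolynomial (Fin 2) ℂ) :=
  Ideal.span (Set.range
      (![MvPolynomial.X 1 ^ 2, MvPolynomial.X 0 * MvPolynomial.X 1, MvPolynomial.X 0 ^ 2] :
        Fin 3 → MvPolynomial (Fin 2) ℂ))

lemma j0_map_C (G : MvPolynomial (Fin 2) ℂ) :
    MvPolynomial.map j0 (MvPolynomial.map Polynomial.C G) = MvPolynomial.map RatFunc.C G := by
  rw [MvPolynomial.map_map]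
  congr 1

theorem sp0 : ∀ i : Fin 3, Special (fam j0 3 F3) 0
    ((![MvPolynomial.X 1 ^ 2, MvPolynomial.X 0 * MvPolynomial.X 1, MvPolynomial.X 0 ^ 2] :
        Fin 3 → MvPolynomial (Fin 2) ℂ) i)
    ((![MvPolynomial.X 0 + MvPolynomial.X 1 - MvPolynomial.X 1 ^ 2,
        -MvPolynomial.X 0 - MvPolynomial.X 1, MvPolynomial.X 0 + MvPolynomial.X 1] :
        Fin 3 → MvPolynomial (Fin 2) ℂ) i) := by
  have h0 : (RatFunc.X : RatFunc ℂ) ≠ 0 := RatFunc.X_ne_zero
  have hm : Polynomial.C (RatFunc.X : RatFunc ℂ) * Polynomial.C ((RatFunc.X - 1) / RatFunc.X) =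
      Polynomial.C (RatFunc.X : RatFunc ℂ) - 1 := by
    rw [← Polynomial.C_mul, mul_div_cancel₀ _ h0, map_sub, map_one]
  have hC : Polynomial.C ((RatFunc.X : RatFunc ℂ) - 1) = Polynomial.C (RatFunc.X : RatFunc ℂ) - 1 := by
    rw [map_sub, map_one]
  intro i
  fin_cases i
  · refine ⟨-MvPolynomial.X 1, ?_⟩
    rw [mem_fam_iff]
    refine ⟨0, ?_⟩
    rw [F3_eq]
    simp only [Fin.zero_eta, Matrix.cons_val_zero, map_add, map_mul, map_pow, map_neg, map_sub,
      map_one, MvPolynomial.map_X, MvPolynomial.map_C,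
      map_zero, sub_zero, mul_zero, MvPolynomial.aeval_X, MvPolynomial.aeval_C, j0_X,
      Polynomial.algebraMap_eq, Matrix.cons_val_one]
    linear_combination (Polynomial.X ^ 2) * hm
  · refine ⟨MvPolynomial.X 1, ?_⟩
    rw [mem_fam_iff]
    refine ⟨Polynomial.C ((RatFunc.X - 1) / RatFunc.X), ?_⟩
    rw [F3_eq]
    simp only [Fin.mk_one, Matrix.cons_val_zero, map_add, map_mul, map_pow, map_neg, map_sub,
      map_one, MvPolynomial.map_X, MvPolynomial.map_C,
      map_zero, sub_zero, mul_zero, MvPolynomial.aeval_X, MvPolynomial.aeval_C, j0_X,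
      Polynomial.algebraMap_eq, Matrix.cons_val_one]
    linear_combination (-Polynomial.X ^ 2) * hm
  · refine ⟨-MvPolynomial.X 0 - 2 * MvPolynomial.X 1 + MvPolynomial.C Polynomial.X * MvPolynomial.X 1, ?_⟩
    rw [mem_fam_iff]
    refine ⟨Polynomial.C ((RatFunc.X - 1) / RatFunc.X) * (2 * Polynomial.C ((RatFunc.X : RatFunc ℂ) - 1) +
      Polynomial.C ((RatFunc.X - 1) / RatFunc.X) * Polynomial.X), ?_⟩
    rw [F3_eq]
    simp only [Fin.reduceFinMk, Matrix.cons_val_zero, map_add, map_mul, map_pow, map_neg, map_sub,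
      map_one, MvPolynomial.map_X, MvPolynomial.map_C, map_ofNat,
      map_zero, sub_zero, mul_zero, MvPolynomial.aeval_X, MvPolynomial.aeval_C, j0_X,
      Polynomial.algebraMap_eq, Matrix.cons_val_one, Matrix.cons_val]
    linear_combination ((1 - Polynomial.C (RatFunc.X : RatFunc ℂ)) * Polynomial.X ^ 2) * hm

theorem spi : ∀ i : Fin 2, Special (fam j1 3 F3) 0
    ((![MvPolynomial.C 1 * MvPolynomial.X 1, MvPolynomial.X 0 ^ 3] :
        Fin 2 → MvPolynomial (Fin 2) ℂ) i)
    ((![-MvPolynomial.X 1 - MvPolynomial.X 0 + MvPolynomial.X 1 ^ 2, 0] :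
        Fin 2 → MvPolynomial (Fin 2) ℂ) i) := by
  have h0 : (RatFunc.X : RatFunc ℂ) ≠ 0 := RatFunc.X_ne_zero
  have hm : Polynomial.C ((RatFunc.X - 1) / RatFunc.X) =
      1 - Polynomial.C ((RatFunc.X : RatFunc ℂ)⁻¹) := by
    rw [← map_one Polynomial.C, ← map_sub]
    congr 1
    field_simp
  have hm2 : Polynomial.C ((RatFunc.X : RatFunc ℂ)⁻¹) * Polynomial.C (RatFunc.X : RatFunc ℂ) = 1 := by
    rw [← Polynomial.C_mul, inv_mul_cancel₀ h0, map_one]
  intro i
  fin_cases i
  · refine ⟨-MvPolynomial.X 1 ^ 2, ?_⟩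
    rw [mem_fam_iff]
    refine ⟨0, ?_⟩
    rw [F3_eq]
    simp only [Fin.zero_eta, Matrix.cons_val_zero, map_add, map_mul, map_pow, map_neg, map_sub,
      map_one, MvPolynomial.map_X, MvPolynomial.map_C,
      map_zero, sub_zero, mul_zero, MvPolynomial.aeval_X, MvPolynomial.aeval_C, j1_X,
      Polynomial.algebraMap_eq, Matrix.cons_val_one, one_mul]
    rw [hm]
    linear_combination (-Polynomial.X) * hm2
  · refine ⟨0, ?_⟩
    rw [mem_fam_iff]
    refine ⟨(Polynomial.C ((RatFunc.X : RatFunc ℂ) - 1) +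
      Polynomial.C ((RatFunc.X - 1) / RatFunc.X) * Polynomial.X) ^ 3, ?_⟩
    rw [F3_eq]
    simp only [Fin.mk_one, Matrix.cons_val_zero, map_add, map_mul, map_pow,
      MvPolynomial.map_X, MvPolynomial.map_C,
      map_zero, mul_zero, MvPolynomial.aeval_X, add_zero, Matrix.cons_val_one]
    ring

lemma mem_Tri_iff (g : MvPolynomial (Fin 2) ℂ) : g ∈ Tri ↔
    (MvPolynomial.coeff 0 g = 0 ∧ MvPolynomial.coeff (Finsupp.single 0 1) g = 0 ∧
      MvPolynomial.coeff (Finsupp.single 1 1) g = 0) := mem_sq_iff g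

lemma e01 : (Finsupp.single (0 : Fin 2) 1 : Fin 2 →₀ ℕ) ≠ Finsupp.single 1 1 := by
  intro h
  have := DFunLike.congr_fun h 0
  simp at this

lemma e12 : (Finsupp.single (1 : Fin 2) 2 : Fin 2 →₀ ℕ) ≠ Finsupp.single 1 1 := by
  intro h
  have := DFunLike.congr_fun h 1
  simp at this

theorem three : ∃ F : P1Family 3, F.IsClosedEmbedding ∧ Col 3 1 ∈ Set.range F.value ∧
    JJ 3 (0 : Polynomial ℂ) ∈ Set.range F.value ∧ Tri ∈ Set.range F.value := by
  let Fm : P1Family 3 :=
    { I₀ := fam j0 3 F3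
      I₁ := fam j1 3 F3
      hilb₀ := fam_hilb j0 isFrac_j0 3 F3 F3_zero
      hilb₁ := fam_hilb j1 isFrac_j1 3 F3 F3_zero
      glue := fam_glue 3 F3 }
  have v0 : fib 0 (fam j0 3 F3) = Tri :=
    fib_eq 3 _ (fam_hilb j0 isFrac_j0 3 F3 F3_zero) 0 _ _ sp0 sq_hilb
  have vi : fib 0 (fam j1 3 F3) = Col 3 1 :=
    fib_eq 3 _ (fam_hilb j1 isFrac_j1 3 F3 F3_zero) 0 _ _ spi (hilb_col 3 (by norm_num) 1 one_ne_zero)
  set f : ℂ → Polynomial ℂ := fun a =>
    ∑ i ∈ Finset.Ico 1 3, Polynomial.monomial i ((P3 i).eval a / (Polynomial.X : Polynomial ℂ).eval a) with hf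
  have hX : ∀ a : ℂ, a ≠ 0 → (Polynomial.X : Polynomial ℂ).eval a ≠ 0 := by
    intro a ha
    rwa [Polynomial.eval_X]
  have hreg := fun (a : ℂ) (ha : a ≠ 0) => at_regular 3 (by norm_num) Polynomial.X P3 a (hX a ha) F3 rfl
  have va : ∀ a : ℂ, a ≠ 0 → fib a (fam j0 3 F3) = JJ 3 (f a) := fun a ha => (hreg a ha).1
  have hf0 : ∀ a : ℂ, (f a).coeff 0 = 0 := by
    intro a
    simp only [hf]
    rw [coeff_sum_mono, if_neg (by simp)]
  have hf1 : ∀ a : ℂ, a ≠ 0 → (f a).coeff 1 = a - 1 := by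
    intro a ha
    simp only [hf]
    rw [coeff_sum_mono, if_pos (by decide)]
    unfold P3
    rw [if_pos rfl, Polynomial.eval_mul, Polynomial.eval_sub, Polynomial.eval_X, Polynomial.eval_one,
      mul_div_cancel_left₀ _ ha]
  have hx1 : f 1 = 0 := by
    ext i
    simp only [hf]
    rw [coeff_sum_mono, Polynomial.coeff_zero]
    split_ifs with hi
    · unfold P3
      split_ifs with h1
      · simp
      · simp
    · rfl
  have hTJ : ∀ g : Polynomial ℂ, g.coeff 0 = 0 → Tri ≠ JJ 3 g := by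
    intro g hg h
    have h1 : (MvPolynomial.X 0 - (MvPolynomial.C (g.coeff 1) * MvPolynomial.X 1 +
        MvPolynomial.C (g.coeff 2) * MvPolynomial.X 1 ^ 2) : MvPolynomial (Fin 2) ℂ) ∈ JJ 3 g := by
      rw [mem_JJ, Polynomial.X_pow_dvd_iff]
      intro d hd
      simp only [map_sub, map_add, map_mul, map_pow, MvPolynomial.aeval_X, MvPolynomial.aeval_C,
        Matrix.cons_val_zero, Matrix.cons_val_one, Polynomial.algebraMap_eq]
      rw [Polynomial.coeff_sub, Polynomial.coeff_add, Polynomial.coeff_C_mul, Polynomial.coeff_C_mul,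
        Polynomial.coeff_X, Polynomial.coeff_X_pow]
      interval_cases d
      · simp [hg]
      · simp
      · simp
    rw [← h, mem_Tri_iff] at h1
    have h2 := h1.2.1
    rw [MvPolynomial.coeff_sub, MvPolynomial.coeff_add, MvPolynomial.coeff_C_mul,
      MvPolynomial.coeff_C_mul, MvPolynomial.coeff_X_pow, MvPolynomial.coeff_X, MvPolynomial.coeff_X] at h2
    have e02 : (Finsupp.single (1 : Fin 2) 2 : Fin 2 →₀ ℕ) ≠ Finsupp.single 0 1 := by
      intro h
      have := DFunLike.congr_fun h 0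
      simp at this
    rw [if_neg e02, if_neg e01.symm] at h2
    simp at h2
  have hTC : Tri ≠ Col 3 1 := by
    intro h
    have h1 := X1_mem_Col 3 1 one_ne_zero
    rw [← h, mem_Tri_iff] at h1
    have h2 := h1.2.2
    rw [MvPolynomial.coeff_X, if_pos rfl] at h2
    exact one_ne_zero h2
  have hneCol : ∀ a : ℂ, fib a (fam j0 3 F3) ≠ Col 3 1 := by
    intro a hcon
    by_cases ha : a = 0
    · subst ha
      rw [v0] at hcon
      exact hTC hcon
    · rw [va a ha] at hcon
      exact col_ne_JJ 3 (by norm_num) 1 one_ne_zero (f a) (hf0 a) hcon.symm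
  have hinj : ∀ a b : ℂ, fib a (fam j0 3 F3) = fib b (fam j0 3 F3) → a = b := by
    intro a b hab
    by_cases ha : a = 0
    · subst ha
      by_cases hb : b = 0
      · exact hb.symm
      · rw [v0, va b hb] at hab
        exact absurd hab (hTJ _ (hf0 b))
    · by_cases hb : b = 0
      · subst hb
        rw [v0, va a ha] at hab
        exact absurd hab.symm (hTJ _ (hf0 a))
      · rw [va a ha, va b hb] at hab
        have hdvd := JJ_inj 3 (f a) (f b) hab
        rw [Polynomial.X_pow_dvd_iff] at hdvd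
        have h1 := hdvd 1 (by norm_num)
        rw [Polynomial.coeff_sub, hf1 a ha, hf1 b hb] at h1
        linear_combination h1
  refine ⟨Fm, ⟨?_, ?_, ?_⟩, ⟨OnePoint.infty, vi⟩, ⟨((1 : ℂ) : OnePoint ℂ), ?_⟩,
    ⟨((0 : ℂ) : OnePoint ℂ), v0⟩⟩
  · intro x y hxy
    induction x using OnePoint.rec with
    | infty =>
      induction y using OnePoint.rec with
      | infty => rfl
      | coe b =>
        exfalso
        have h1 : fib 0 (fam j1 3 F3) = fib b (fam j0 3 F3) := hxy
        rw [vi] at h1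
        exact hneCol b h1.symm
    | coe a =>
      induction y using OnePoint.rec with
      | infty =>
        exfalso
        have h1 : fib a (fam j0 3 F3) = fib 0 (fam j1 3 F3) := hxy
        rw [vi] at h1
        exact hneCol a h1
      | coe b =>
        have h1 : fib a (fam j0 3 F3) = fib b (fam j0 3 F3) := hxy
        rw [hinj a b h1]
  · intro a
    change ¬ DiffZero a (fam j0 3 F3)
    by_cases ha : a = 0
    · subst ha
      apply not_diffZero _ 0 _ _ (sp0 0)
      rw [v0, mem_Tri_iff]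
      rintro ⟨-, h, -⟩
      simp only [Matrix.cons_val_zero] at h
      rw [MvPolynomial.coeff_sub, MvPolynomial.coeff_add, MvPolynomial.coeff_X_pow,
        MvPolynomial.coeff_X, MvPolynomial.coeff_X] at h
      have e02 : (Finsupp.single (1 : Fin 2) 2 : Fin 2 →₀ ℕ) ≠ Finsupp.single 0 1 := by
        intro h
        have := DFunLike.congr_fun h 0
        simp at this
      rw [if_neg e02, if_neg e01.symm] at h
      simp at h
    · apply (hreg a ha).2
      refine ⟨1, by decide, ?_⟩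
      unfold P3
      rw [if_pos rfl]
      simp only [Polynomial.derivative_mul, Polynomial.derivative_X, Polynomial.derivative_sub,
        Polynomial.derivative_one, Polynomial.eval_sub, Polynomial.eval_mul, Polynomial.eval_add,
        Polynomial.eval_X, Polynomial.eval_one, Polynomial.eval_zero]
      have : (1 * (a - 1) + a * (1 - 0)) * a - a * (a - 1) * 1 = a ^ 2 := by ring
      rw [this]
      exact pow_ne_zero _ ha
  · change ¬ DiffZero 0 (fam j1 3 F3)
    apply not_diffZero _ 0 _ _ (spi 0)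
    rw [vi]
    intro hmem
    let φ : MvPolynomial (Fin 2) ℂ →ₐ[ℂ] Polynomial ℂ :=
      MvPolynomial.aeval ![(Polynomial.X : Polynomial ℂ), 0]
    have hle : Col 3 1 ≤ (Ideal.span {(Polynomial.X : Polynomial ℂ) ^ 3}).comap φ.toRingHom := by
      unfold Col
      rw [Ideal.span_le]
      rintro _ ⟨i, rfl⟩
      fin_cases i
      · change φ (MvPolynomial.C 1 * MvPolynomial.X 1) ∈
          (Ideal.span {(Polynomial.X : Polynomial ℂ) ^ 3} : Ideal (Polynomial ℂ))
        have : φ (MvPolynomial.C 1 * MvPolynomial.X 1) = 0 := by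
          simp [φ]
        rw [this]
        exact Submodule.zero_mem _
      · change φ (MvPolynomial.X 0 ^ 3) ∈
          (Ideal.span {(Polynomial.X : Polynomial ℂ) ^ 3} : Ideal (Polynomial ℂ))
        have : φ (MvPolynomial.X 0 ^ 3) = Polynomial.X ^ 3 := by
          simp [φ]
        rw [this]
        exact Ideal.mem_span_singleton_self _
    have h1 := hle hmem
    have h2 : φ (-MvPolynomial.X 1 - MvPolynomial.X 0 + MvPolynomial.X 1 ^ 2) = -Polynomial.X := by
      simp [φ]
    have h3 : (Polynomial.X : Polynomial ℂ) ^ 3 ∣ -Polynomial.X := by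
      rw [← h2]
      exact Ideal.mem_span_singleton.mp h1
    rw [Polynomial.X_pow_dvd_iff] at h3
    have h4 := h3 1 (by norm_num)
    rw [Polynomial.coeff_neg, Polynomial.coeff_X_one] at h4
    exact one_ne_zero (neg_eq_zero.mp h4)
  · change fib 1 (fam j0 3 F3) = _
    rw [va 1 one_ne_zero, hx1]

end Pool.Agent.Y756.HB
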