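import Mathlib
import Pool.Agent.Y756.HB.Three

set_option autoImplicit false

/-! One smooth rational curve through all monomial ideals of the same colength. -/

namespace Pool.Agent.Y756.HB

open MP4403b8

/-- there are finitely many monomial ideals of colength `n` -/
theorem finite_mon (n : ℕ) :
    {I : Ideal (MvPolynomial (Fin 2) ℂ) | IsHilbPoint n ℂ I ∧ IsMonomialIdeal I}.Finite := by
  let Φ : (Fin (n + 1) → Fin (n + 1)) → Ideal (MvPolynomial (Fin 2) ℂ) := fun g =>
    Ideal.span (Set.range fun v : Fin (n + 1) =>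
      (MvPolynomial.X 0 ^ (v : ℕ) * MvPolynomial.X 1 ^ (g v : ℕ) : MvPolynomial (Fin 2) ℂ))
  refine (Set.finite_range Φ).subset ?_
  rintro I ⟨hI, mI⟩
  obtain ⟨h, N, hh, hN, hs, hm, -, hspan⟩ := monomial_heights n I hI mI
  have hle : ∀ v, h v ≤ n := fun v => (hh (Nat.zero_le v)).trans (aux_h0 n h N hh hN hs)
  refine ⟨fun v => ⟨h v, Nat.lt_succ_of_le (hle v)⟩, ?_⟩
  apply le_antisymm
  · change Ideal.span _ ≤ I
    rw [Ideal.span_le]
    rintro _ ⟨v, rfl⟩
    exact (hm v (h v)).mpr le_rfl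
  · rw [hspan]
    change _ ≤ Ideal.span (Set.range fun v : Fin (n + 1) =>
      (MvPolynomial.X 0 ^ (v : ℕ) * MvPolynomial.X 1 ^ (h v : ℕ) : MvPolynomial (Fin 2) ℂ))
    rw [Ideal.span_le]
    rintro _ ⟨v, rfl⟩
    by_cases hv : (v : ℕ) ≤ n
    · exact Ideal.subset_span ⟨⟨v, Nat.lt_succ_of_le hv⟩, rfl⟩
    · have hn0 : h n = 0 := aux_hn n h N hh hN hs
      have hv0 : h v = 0 := by
        have := hh (le_of_not_ge hv)
        omega
      have e : (MvPolynomial.X 0 ^ (v : ℕ) * MvPolynomial.X 1 ^ (h v) : MvPolynomial (Fin 2) ℂ) =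
          MvPolynomial.X 0 ^ ((v : ℕ) - n) * (MvPolynomial.X 0 ^ n * MvPolynomial.X 1 ^ (h n)) := by
        rw [hn0, hv0, pow_zero, mul_one, mul_one, ← pow_add]
        congr 1
        omega
      change (MvPolynomial.X 0 ^ (v : ℕ) * MvPolynomial.X 1 ^ (h v) : MvPolynomial (Fin 2) ℂ) ∈ _
      rw [e]
      exact Ideal.mul_mem_left _ _ (Ideal.subset_span ⟨⟨n, Nat.lt_succ_self n⟩, rfl⟩)

/-- there is one monomial ideal of colength `n ≤ 1` -/
theorem small (n : ℕ) (hn : n ≤ 1) (I J : Ideal (MvPolynomial (Fin 2) ℂ))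
    (hI : IsHilbPoint n ℂ I) (hJ : IsHilbPoint n ℂ J)
    (mI : IsMonomialIdeal I) (mJ : IsMonomialIdeal J) : I = J := by
  obtain ⟨h, N, hh, hN, hs, hm, -, -⟩ := monomial_heights n I hI mI
  obtain ⟨h', N', hh', hN', hs', hm', -, -⟩ := monomial_heights n J hJ mJ
  have b := aux_h0 n h N hh hN hs
  have b' := aux_h0 n h' N' hh' hN' hs'
  rcases Nat.eq_zero_or_pos n with h0 | h0
  · have t1 : (1 : MvPolynomial (Fin 2) ℂ) ∈ I := by
      have := (hm 0 0).mpr (by omega)
      simpa using this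
    have t2 : (1 : MvPolynomial (Fin 2) ℂ) ∈ J := by
      have := (hm' 0 0).mpr (by omega)
      simpa using this
    exact ((Ideal.eq_top_iff_one _).mpr t1).trans ((Ideal.eq_top_iff_one _).mpr t2).symm
  · have t1 : (MvPolynomial.X 1 : MvPolynomial (Fin 2) ℂ) ∈ I := by
      have := (hm 0 1).mpr (by omega)
      simpa using this
    have t2 : (MvPolynomial.X 1 : MvPolynomial (Fin 2) ℂ) ∈ J := by
      have := (hm' 0 1).mpr (by omega)
      simpa using this
    exact (aux_col h0 hI mI t1).trans (aux_col h0 hJ mJ t2).symm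

/-- For `n ≥ 2` all monomial ideals of colength `n` lie on one smooth rational curve. -/
theorem all_mon (n : ℕ) (hn : 2 ≤ n) : ∃ F : P1Family n, F.IsClosedEmbedding ∧
    ∀ I : Ideal (MvPolynomial (Fin 2) ℂ), IsHilbPoint n ℂ I → IsMonomialIdeal I →
      I ∈ Set.range F.value := by
  classical
  rcases Nat.lt_or_ge n 4 with h4 | h4
  · interval_cases n
    · obtain ⟨F, hF, hr, hc⟩ := joined_row_col 2 (by norm_num)
      refine ⟨F, hF, fun I hI mI => ?_⟩
      by_cases h1 : (MvPolynomial.X 1 : MvPolynomial (Fin 2) ℂ) ∈ I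
      · rw [aux_col (by norm_num) hI mI h1]
        exact hc
      · rw [aux_row hI mI (aux_two hI mI h1)]
        exact hr
    · obtain ⟨F, hF, hc, hr, ht⟩ := three
      refine ⟨F, hF, fun I hI mI => ?_⟩
      by_cases h1 : (MvPolynomial.X 1 : MvPolynomial (Fin 2) ℂ) ∈ I
      · rw [aux_col (by norm_num) hI mI h1]
        exact hc
      · by_cases h0 : (MvPolynomial.X 0 : MvPolynomial (Fin 2) ℂ) ∈ I
        · rw [aux_row hI mI h0]
          exact hr
        · rw [aux_tri hI mI h0 h1]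
          exact ht
  · let r : Type := {I : Ideal (MvPolynomial (Fin 2) ℂ) //
      (IsHilbPoint n ℂ I ∧ IsMonomialIdeal I) ∧ (MvPolynomial.X 1 : MvPolynomial (Fin 2) ℂ) ∉ I}
    have hfin : Finite r := ((finite_mon n).subset (fun I (hI : (IsHilbPoint n ℂ I ∧
      IsMonomialIdeal I) ∧ (MvPolynomial.X 1 : MvPolynomial (Fin 2) ℂ) ∉ I) => hI.1)).to_subtype
    have : Fintype r := Fintype.ofFinite r
    obtain ⟨F, hF, hK, hc⟩ := through_main n h4 (fun j : r => j.1) Subtype.val_injective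
      (fun j => j.2.1.1) (fun j => j.2.1.2) (fun j => j.2.2)
    refine ⟨F, hF, fun I hI mI => ?_⟩
    by_cases h1 : (MvPolynomial.X 1 : MvPolynomial (Fin 2) ℂ) ∈ I
    · rw [aux_col (by omega) hI mI h1]
      exact hc
    · exact hK ⟨I, ⟨hI, mI⟩, h1⟩

end Pool.Agent.Y756.HB
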