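import Mathlib
import Pool.Agent.HilbP1.P7

set_option autoImplicit false

/-! Generic coefficients. -/

namespace Pool.Agent.Y756.HB

open MP4403b8

/-- generic coefficients; the pairs in `C` are avoided -/
theorem generic_coeffs' (B1 B2 B3 H Q : Polynomial ℂ) (hB1 : ∀ κ : ℂ, B1 ≠ Polynomial.C κ * Q)
    (C : Set (ℂ × ℂ)) (hC : C.Countable) :
    ∃ r1 r2 q1 q2 : ℂ, ∀ P2 P3 : Polynomial ℂ,
      P2 = B2 + H * (Polynomial.C r1 + Polynomial.C r2 * Polynomial.X) →
      P3 = B3 + H * (Polynomial.C q1 + Polynomial.C q2 * Polynomial.X) →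
      (∀ a : ℂ, H.eval a ≠ 0 → Q.eval a ≠ 0 → ∀ c ∈ C,
        ¬ (B1.eval a = c.1 * Q.eval a ∧ P2.eval a = c.2 * Q.eval a)) ∧
      (∀ a : ℂ, H.eval a ≠ 0 → Q.eval a ≠ 0 →
        ¬ ((Polynomial.derivative B1 * Q - B1 * Polynomial.derivative Q).eval a = 0 ∧
           (Polynomial.derivative P2 * Q - P2 * Polynomial.derivative Q).eval a = 0)) ∧
      (∀ a a' : ℂ, a ≠ a' → H.eval a ≠ 0 → Q.eval a ≠ 0 → H.eval a' ≠ 0 → Q.eval a' ≠ 0 →
        ¬ (B1.eval a * Q.eval a' = B1.eval a' * Q.eval a ∧
           P2.eval a * Q.eval a' = P2.eval a' * Q.eval a ∧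
           P3.eval a * Q.eval a' = P3.eval a' * Q.eval a)) := by
  -- the countable set of coefficients
  let S0 : Set ℂ := Set.range B1.coeff ∪ Set.range B2.coeff ∪ Set.range B3.coeff ∪
    Set.range H.coeff ∪ Set.range Q.coeff ∪ (Prod.fst '' C ∪ Prod.snd '' C)
  have hS0 : S0.Countable :=
    (((((Set.countable_range _).union (Set.countable_range _)).union
      (Set.countable_range _)).union (Set.countable_range _)).union (Set.countable_range _)).union
      ((hC.image _).union (hC.image _))
  obtain ⟨r1, hr1⟩ := exists_not_mem_cl hS0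
  obtain ⟨r2, hr2⟩ := exists_not_mem_cl (hS0.insert r1)
  obtain ⟨q1, hq1⟩ := exists_not_mem_cl ((hS0.insert r1).insert r2)
  obtain ⟨q2, hq2⟩ := exists_not_mem_cl (((hS0.insert r1).insert r2).insert q1)
  have cB1 : ∀ n, B1.coeff n ∈ cl S0 := fun n => subset_cl _ (by
    simp only [S0, Set.mem_union, Set.mem_range_self, true_or])
  have cB2 : ∀ n, B2.coeff n ∈ cl S0 := fun n => subset_cl _ (by
    simp only [S0, Set.mem_union, Set.mem_range_self, true_or, or_true])
  have cB3 : ∀ n, B3.coeff n ∈ cl S0 := fun n => subset_cl _ (by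
    simp only [S0, Set.mem_union, Set.mem_range_self, true_or, or_true])
  have cH : ∀ n, H.coeff n ∈ cl S0 := fun n => subset_cl _ (by
    simp only [S0, Set.mem_union, Set.mem_range_self, true_or, or_true])
  have cQ : ∀ n, Q.coeff n ∈ cl S0 := fun n => subset_cl _ (by
    simp only [S0, Set.mem_union, Set.mem_range_self, true_or, or_true])
  have cc1 : ∀ c ∈ C, c.1 ∈ cl S0 := fun c hc => subset_cl _
    (Or.inr (Or.inl (Set.mem_image_of_mem _ hc)))
  have cc2 : ∀ c ∈ C, c.2 ∈ cl S0 := fun c hc => subset_cl _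
    (Or.inr (Or.inr (Set.mem_image_of_mem _ hc)))
  refine ⟨r1, r2, q1, q2, ?_⟩
  rintro P2 P3 rfl rfl
  refine ⟨?_, ?_, ?_⟩
  · rintro a hHa hQa c hc ⟨h1, h2⟩
    have ha : a ∈ cl S0 := by
      refine cl_root (B1 - Polynomial.C c.1 * Q) (sub_ne_zero.mpr (hB1 c.1))
        (coeff_sub_mem _ _ cB1 (coeff_C_mul_mem _ (cc1 c hc) _ cQ)) a ?_
      rw [Polynomial.eval_sub, Polynomial.eval_mul, Polynomial.eval_C, h1, sub_self]
    simp only [Polynomial.eval_add, Polynomial.eval_mul, Polynomial.eval_C,
      Polynomial.eval_X] at h2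
    exact linear_step (Set.subset_insert r1 S0) (subset_cl _ (Set.mem_insert _ _)) hr1 hr2
      (cl_eval H cH ha) (cl_mul ha (cl_eval H cH ha))
      (cl_sub (cl_eval B2 cB2 ha) (cl_mul (cc2 c hc) (cl_eval Q cQ ha))) (Or.inl hHa)
      (by linear_combination h2)
  · rintro a hHa hQa ⟨h1, h2⟩
    have hQ0 : Q ≠ 0 := by rintro rfl; simp at hQa
    have hw := wronskian_ne_zero B1 Q hQ0 hB1
    have ha : a ∈ cl S0 := cl_root _ hw (coeff_sub_mem _ _
      (coeff_mul_mem _ _ (coeff_derivative_mem _ cB1) cQ)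
      (coeff_mul_mem _ _ cB1 (coeff_derivative_mem _ cQ))) a h1
    have eH := cl_eval H cH ha
    have eQ := cl_eval Q cQ ha
    have eB := cl_eval B2 cB2 ha
    have eH' := cl_eval _ (coeff_derivative_mem _ cH) ha
    have eQ' := cl_eval _ (coeff_derivative_mem _ cQ) ha
    have eB' := cl_eval _ (coeff_derivative_mem _ cB2) ha
    simp only [Polynomial.derivative_add, Polynomial.derivative_mul, Polynomial.derivative_C,
      Polynomial.derivative_X, Polynomial.eval_sub, Polynomial.eval_add, Polynomial.eval_mul,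
      Polynomial.eval_C, Polynomial.eval_X, Polynomial.eval_zero, Polynomial.eval_one] at h2
    refine linear_step (α := (Polynomial.derivative H).eval a * Q.eval a -
        H.eval a * (Polynomial.derivative Q).eval a)
      (β := a * ((Polynomial.derivative H).eval a * Q.eval a -
        H.eval a * (Polynomial.derivative Q).eval a) + H.eval a * Q.eval a)
      (γ := (Polynomial.derivative B2).eval a * Q.eval a -
        B2.eval a * (Polynomial.derivative Q).eval a)
      (Set.subset_insert r1 S0) (subset_cl _ (Set.mem_insert _ _)) hr1 hr2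
      (cl_sub (cl_mul eH' eQ) (cl_mul eH eQ'))
      (cl_add (cl_mul ha (cl_sub (cl_mul eH' eQ) (cl_mul eH eQ'))) (cl_mul eH eQ))
      (cl_sub (cl_mul eB' eQ) (cl_mul eB eQ')) ?_ (by linear_combination h2)
    by_contra hcon
    push Not at hcon
    obtain ⟨c1, c2⟩ := hcon
    rw [c1, mul_zero, zero_add] at c2
    exact (mul_ne_zero hHa hQa) c2
  · rintro a a' haa hHa hQa hHa' hQa' ⟨h1, h2, h3⟩
    have hu : H.eval a * Q.eval a' ≠ 0 := mul_ne_zero hHa hQa'
    have hv : H.eval a' * Q.eval a ≠ 0 := mul_ne_zero hHa' hQa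
    have hne : H.eval a * Q.eval a' - H.eval a' * Q.eval a ≠ 0 ∨
        a * (H.eval a * Q.eval a') - a' * (H.eval a' * Q.eval a) ≠ 0 := by
      by_contra hcon
      push Not at hcon
      obtain ⟨c1, c2⟩ := hcon
      have : (a - a') * (H.eval a * Q.eval a') = 0 := by linear_combination c2 - a' * c1
      rcases mul_eq_zero.mp this with h | h
      · exact haa (sub_eq_zero.mp h)
      · exact hu h
    simp only [Polynomial.eval_add, Polynomial.eval_mul, Polynomial.eval_C,
      Polynomial.eval_X] at h2 h3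
    -- `a'` is algebraic over `a`
    have ha' : ∀ s : Set ℂ, S0 ⊆ s → a ∈ cl s → a' ∈ cl s := by
      intro s hs ha
      have cQ' : ∀ n, Q.coeff n ∈ cl s := fun n => cl_mono hs (cQ n)
      have cB1' : ∀ n, B1.coeff n ∈ cl s := fun n => cl_mono hs (cB1 n)
      refine cl_root (Polynomial.C (B1.eval a) * Q - Polynomial.C (Q.eval a) * B1) ?_
        (coeff_sub_mem _ _ (coeff_C_mul_mem _ (cl_eval _ cB1' ha) _ cQ')
          (coeff_C_mul_mem _ (cl_eval _ cQ' ha) _ cB1')) a' ?_
      · intro h0
        apply hB1 (B1.eval a / Q.eval a)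
        have h0' : Polynomial.C (B1.eval a) * Q = Polynomial.C (Q.eval a) * B1 :=
          sub_eq_zero.mp h0
        have hC : Polynomial.C (Q.eval a)⁻¹ * Polynomial.C (Q.eval a) = (1 : Polynomial ℂ) := by
          rw [← Polynomial.C_mul, inv_mul_cancel₀ hQa, Polynomial.C_1]
        rw [div_eq_mul_inv, Polynomial.C_mul]
        linear_combination (-B1) * hC - Polynomial.C (Q.eval a)⁻¹ * h0'
      · simp only [Polynomial.eval_sub, Polynomial.eval_mul, Polynomial.eval_C]
        linear_combination h1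
    -- values
    have hval : ∀ s : Set ℂ, S0 ⊆ s → a ∈ cl s →
        (H.eval a * Q.eval a' - H.eval a' * Q.eval a ∈ cl s) ∧
        (a * (H.eval a * Q.eval a') - a' * (H.eval a' * Q.eval a) ∈ cl s) ∧
        (B2.eval a * Q.eval a' - B2.eval a' * Q.eval a ∈ cl s) ∧
        (B3.eval a * Q.eval a' - B3.eval a' * Q.eval a ∈ cl s) := by
      intro s hs ha
      have ha'' := ha' s hs ha
      have cQ' : ∀ n, Q.coeff n ∈ cl s := fun n => cl_mono hs (cQ n)
      have cH' : ∀ n, H.coeff n ∈ cl s := fun n => cl_mono hs (cH n)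
      have cB2' : ∀ n, B2.coeff n ∈ cl s := fun n => cl_mono hs (cB2 n)
      have cB3' : ∀ n, B3.coeff n ∈ cl s := fun n => cl_mono hs (cB3 n)
      have eu := cl_mul (cl_eval _ cH' ha) (cl_eval _ cQ' ha'')
      have ev := cl_mul (cl_eval _ cH' ha'') (cl_eval _ cQ' ha)
      exact ⟨cl_sub eu ev, cl_sub (cl_mul ha eu) (cl_mul ha'' ev),
        cl_sub (cl_mul (cl_eval _ cB2' ha) (cl_eval _ cQ' ha''))
          (cl_mul (cl_eval _ cB2' ha'') (cl_eval _ cQ' ha)),
        cl_sub (cl_mul (cl_eval _ cB3' ha) (cl_eval _ cQ' ha''))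
          (cl_mul (cl_eval _ cB3' ha'') (cl_eval _ cQ' ha))⟩
    have rel2 : (B2.eval a * Q.eval a' - B2.eval a' * Q.eval a) +
        r1 * (H.eval a * Q.eval a' - H.eval a' * Q.eval a) +
        r2 * (a * (H.eval a * Q.eval a') - a' * (H.eval a' * Q.eval a)) = 0 := by
      linear_combination h2
    have rel3 : (B3.eval a * Q.eval a' - B3.eval a' * Q.eval a) +
        q1 * (H.eval a * Q.eval a' - H.eval a' * Q.eval a) +
        q2 * (a * (H.eval a * Q.eval a') - a' * (H.eval a' * Q.eval a)) = 0 := by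
      linear_combination h3
    have sub2 : S0 ⊆ insert r2 (insert r1 S0) :=
      (Set.subset_insert r1 S0).trans (Set.subset_insert r2 _)
    -- `a` is algebraic over `r1, r2`
    have hK2 : a ∈ cl (insert r2 (insert r1 S0)) := by
      by_cases hb : a * (H.eval a * Q.eval a') - a' * (H.eval a' * Q.eval a) = 0
      · have hal := hne.resolve_right (not_not.mpr hb)
        have hin : r1 ∈ cl (insert a S0) := by
          obtain ⟨v1, v2, v3, v4⟩ := hval (insert a S0) (Set.subset_insert _ _)
            (subset_cl _ (Set.mem_insert _ _))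
          have : r1 = (-(B2.eval a * Q.eval a' - B2.eval a' * Q.eval a)) /
              (H.eval a * Q.eval a' - H.eval a' * Q.eval a) := by
            rw [eq_div_iff hal]
            rw [hb] at rel2
            linear_combination rel2
          rw [this]
          exact cl_div (cl_neg v3) v1
        exact cl_mono (Set.subset_insert r2 _) (cl_exchange hr1 hin)
      · have hin : r2 ∈ cl (insert a (insert r1 S0)) := by
          have hS : S0 ⊆ insert a (insert r1 S0) :=
            (Set.subset_insert r1 S0).trans (Set.subset_insert a _)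
          obtain ⟨v1, v2, v3, v4⟩ := hval (insert a (insert r1 S0)) hS
            (subset_cl _ (Set.mem_insert _ _))
          have hr1' : r1 ∈ cl (insert a (insert r1 S0)) :=
            subset_cl _ (Set.mem_insert_of_mem _ (Set.mem_insert _ _))
          have : r2 = (-((B2.eval a * Q.eval a' - B2.eval a' * Q.eval a) +
              r1 * (H.eval a * Q.eval a' - H.eval a' * Q.eval a))) /
              (a * (H.eval a * Q.eval a') - a' * (H.eval a' * Q.eval a)) := by
            rw [eq_div_iff hb]
            linear_combination rel2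
          rw [this]
          exact cl_div (cl_neg (cl_add v3 (cl_mul hr1' v1))) v2
        exact cl_exchange hr2 hin
    obtain ⟨v1, v2, v3, v4⟩ := hval _ sub2 hK2
    exact linear_step (Set.subset_insert q1 _) (subset_cl _ (Set.mem_insert _ _)) hq1 hq2
      v1 v2 v4 hne rel3

end Pool.Agent.Y756.HB
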