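import Mathlib
import Pool.Agent.HilbP1.J12c

set_option autoImplicit false

/-! Arcs through monomial and through curvilinear ideals. -/

namespace Pool.Agent.Y756.HB

open MP4403b8

/-- an immersed arc of curvilinear ideals passes through `K` at every place -/
def Good (n : ℕ) (K : Ideal (MvPolynomial (Fin 2) ℂ)) : Prop :=
  ∃ (m : ℕ) (G0 G1 : Fin m → MvPolynomial (Fin 2) ℂ),
    Ideal.span (Set.range G0) = K ∧ (∃ i, G1 i ∉ K) ∧ ∀ a : ℂ, Arc n a G0 G1

theorem good_mon (n : ℕ) (hn : 2 ≤ n) (K : Ideal (MvPolynomial (Fin 2) ℂ))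
    (hK : IsHilbPoint n ℂ K) (mK : IsMonomialIdeal K) : Good n K := by
  obtain ⟨h, N, hanti, hN0, hsum, -, hsupp, hgen⟩ := monomial_heights n K hK mK
  obtain ⟨m, G0, G1, hG0, ⟨i0, m0, hm0, hlt0⟩, harc⟩ := arcs n hn h hanti N hN0 hsum
  refine ⟨m, G0, G1, by rw [hG0, ← hgen], ⟨i0, fun hmem => ?_⟩, harc⟩
  have := (hsupp _).mp hmem m0 hm0
  omega

/-- `f(y)` as a polynomial in two variables -/
noncomputable def inY (f : Polynomial ℂ) : MvPolynomial (Fin 2) ℂ :=
  Polynomial.aeval (MvPolynomial.X 1 : MvPolynomial (Fin 2) ℂ) f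

lemma eval_inY (f g : Polynomial ℂ) :
    MvPolynomial.aeval ![f, Polynomial.X] (inY g) = g := by
  unfold inY
  rw [← Polynomial.aeval_algHom_apply, MvPolynomial.aeval_X]
  exact Polynomial.aeval_X_left_apply g

lemma eval_map_inY (F : Polynomial (RatFunc ℂ)) (g : Polynomial ℂ) :
    MvPolynomial.aeval ![F, Polynomial.X] (MvPolynomial.map RatFunc.C (inY g)) =
      g.map RatFunc.C := by
  unfold inY
  induction g using Polynomial.induction_on' with
  | add p q hp hq => rw [map_add, map_add, map_add, Polynomial.map_add, hp, hq]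
  | monomial k x =>
    rw [Polynomial.aeval_monomial, map_mul, map_mul, map_pow, map_pow, MvPolynomial.map_X,
      MvPolynomial.aeval_X, Polynomial.map_monomial, ← Polynomial.C_mul_X_pow_eq_monomial]
    congr 1
    show MvPolynomial.aeval ![F, Polynomial.X] (MvPolynomial.map RatFunc.C (MvPolynomial.C x)) = _
    rw [MvPolynomial.map_C, MvPolynomial.aeval_C]
    rfl

lemma sub_mem_span (f : Polynomial ℂ) (g : MvPolynomial (Fin 2) ℂ) :
    g - inY (MvPolynomial.aeval ![f, Polynomial.X] g) ∈
      Ideal.span {(MvPolynomial.X 0 - inY f : MvPolynomial (Fin 2) ℂ)} := by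
  have h : (Ideal.Quotient.mk (Ideal.span {(MvPolynomial.X 0 - inY f :
      MvPolynomial (Fin 2) ℂ)})) = (Ideal.Quotient.mk (Ideal.span {(MvPolynomial.X 0 - inY f :
      MvPolynomial (Fin 2) ℂ)})).comp (((Polynomial.aeval (MvPolynomial.X 1 :
        MvPolynomial (Fin 2) ℂ)).toRingHom).comp
      (MvPolynomial.aeval ![f, Polynomial.X] : MvPolynomial (Fin 2) ℂ →ₐ[ℂ] Polynomial ℂ).toRingHom) := by
    apply MvPolynomial.ringHom_ext
    · intro c
      show Ideal.Quotient.mk _ (MvPolynomial.C c) = Ideal.Quotient.mk _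
        (Polynomial.aeval (MvPolynomial.X 1 : MvPolynomial (Fin 2) ℂ)
          (MvPolynomial.aeval ![f, Polynomial.X] (MvPolynomial.C c)))
      rw [MvPolynomial.aeval_C, Polynomial.algebraMap_eq, Polynomial.aeval_C]
      rfl
    · intro i
      show Ideal.Quotient.mk _ (MvPolynomial.X i) = Ideal.Quotient.mk _
        (Polynomial.aeval (MvPolynomial.X 1 : MvPolynomial (Fin 2) ℂ)
          (MvPolynomial.aeval ![f, Polynomial.X] (MvPolynomial.X i)))
      rw [MvPolynomial.aeval_X]
      fin_cases i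
      · exact Ideal.Quotient.eq.2 (Ideal.subset_span rfl)
      · show _ = Ideal.Quotient.mk _
          (Polynomial.aeval (MvPolynomial.X 1 : MvPolynomial (Fin 2) ℂ) (Polynomial.X : Polynomial ℂ))
        rw [Polynomial.aeval_X]
        rfl
  exact Ideal.Quotient.eq.1 (RingHom.congr_fun h g)

lemma span_JJ (n : ℕ) (f : Polynomial ℂ) :
    Ideal.span (Set.range (![MvPolynomial.X 0 - inY f, MvPolynomial.X 1 ^ n] :
      Fin 2 → MvPolynomial (Fin 2) ℂ)) = JJ n f := by
  apply le_antisymm
  · rw [Ideal.span_le]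
    rintro _ ⟨i, rfl⟩
    rw [SetLike.mem_coe, mem_JJ]
    fin_cases i
    · show _ ∣ MvPolynomial.aeval ![f, Polynomial.X] (MvPolynomial.X 0 - inY f)
      rw [map_sub, eval_inY, MvPolynomial.aeval_X]
      show _ ∣ f - f
      rw [sub_self]
      exact dvd_zero _
    · show _ ∣ MvPolynomial.aeval ![f, Polynomial.X] (MvPolynomial.X 1 ^ n)
      rw [map_pow, MvPolynomial.aeval_X]
      exact dvd_refl _
  · intro g hg
    rw [mem_JJ] at hg
    obtain ⟨q, hq⟩ := hg
    have h1 := sub_mem_span f g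
    rw [hq] at h1
    have h2 : inY (Polynomial.X ^ n * q) = inY q * MvPolynomial.X 1 ^ n := by
      unfold inY
      rw [map_mul, map_pow, Polynomial.aeval_X, mul_comm]
    rw [h2] at h1
    have h3 : g = (g - inY q * MvPolynomial.X 1 ^ n) + inY q * MvPolynomial.X 1 ^ n := by ring
    rw [h3]
    refine Ideal.add_mem _ ?_ (Ideal.mul_mem_left _ _ (Ideal.subset_span ⟨1, rfl⟩))
    refine Ideal.span_mono ?_ h1
    rintro _ rfl
    exact ⟨0, rfl⟩

theorem good_JJ (n : ℕ) (hn : 2 ≤ n) (f : Polynomial ℂ) (hf0 : f.coeff 0 = 0)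
    (hfn : f.natDegree < n) : Good n (JJ n f) := by
  refine ⟨2, ![MvPolynomial.X 0 - inY f, MvPolynomial.X 1 ^ n], ![-MvPolynomial.X 1, 0],
    span_JJ n f, ⟨0, ?_⟩, ?_⟩
  · intro h
    rw [mem_JJ] at h
    have e : MvPolynomial.aeval ![f, Polynomial.X]
        ((![-MvPolynomial.X 1, 0] : Fin 2 → MvPolynomial (Fin 2) ℂ) 0) = -Polynomial.X := by
      simp
    rw [e, Polynomial.X_pow_dvd_iff] at h
    have h4 := h 1 (by omega)
    rw [Polynomial.coeff_neg, Polynomial.coeff_X_one] at h4
    exact one_ne_zero (neg_eq_zero.mp h4)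
  · intro a
    obtain ⟨s, hs⟩ : ∃ s : RatFunc ℂ, s = j0 (Polynomial.X - Polynomial.C a) := ⟨_, rfl⟩
    refine ⟨f.map RatFunc.C + Polynomial.C s * Polynomial.X, ?_, ?_,
      fun i => MvPolynomial.map RatFunc.C ((![MvPolynomial.X 0 - inY f, MvPolynomial.X 1 ^ n] :
        Fin 2 → MvPolynomial (Fin 2) ℂ) i) + MvPolynomial.C s *
        MvPolynomial.map RatFunc.C ((![-MvPolynomial.X 1, 0] : Fin 2 → MvPolynomial (Fin 2) ℂ) i),
      ?_, ?_⟩
    · rw [Polynomial.coeff_add, Polynomial.coeff_map, hf0, map_zero, zero_add,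
        Polynomial.coeff_C_mul, Polynomial.coeff_X_zero, mul_zero]
    · refine lt_of_le_of_lt (Polynomial.natDegree_add_le _ _) (max_lt ?_ ?_)
      · exact lt_of_le_of_lt Polynomial.natDegree_map_le hfn
      · refine lt_of_le_of_lt (Polynomial.natDegree_C_mul_le _ _) ?_
        rw [Polynomial.natDegree_X]
        omega
    · intro i
      rw [mem_JJ]
      fin_cases i
      · have e : MvPolynomial.aeval ![(f.map RatFunc.C + Polynomial.C s * Polynomial.X :
            Polynomial (RatFunc ℂ)), Polynomial.X]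
            (MvPolynomial.map RatFunc.C (MvPolynomial.X 0 - inY f) + MvPolynomial.C s *
              MvPolynomial.map RatFunc.C (-MvPolynomial.X 1 : MvPolynomial (Fin 2) ℂ)) = 0 := by
          rw [map_sub, map_add, map_sub, eval_map_inY, map_mul, map_neg, map_neg,
            MvPolynomial.map_X, MvPolynomial.map_X, MvPolynomial.aeval_X, MvPolynomial.aeval_X,
            MvPolynomial.aeval_C, Polynomial.algebraMap_eq]
          show (f.map RatFunc.C + Polynomial.C s * Polynomial.X) - f.map RatFunc.C +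
            Polynomial.C s * -Polynomial.X = 0
          ring
        show _ ∣ MvPolynomial.aeval ![(f.map RatFunc.C + Polynomial.C s * Polynomial.X :
            Polynomial (RatFunc ℂ)), Polynomial.X]
            (MvPolynomial.map RatFunc.C (MvPolynomial.X 0 - inY f) + MvPolynomial.C s *
              MvPolynomial.map RatFunc.C (-MvPolynomial.X 1 : MvPolynomial (Fin 2) ℂ))
        rw [e]
        exact dvd_zero _
      · have e : MvPolynomial.aeval ![(f.map RatFunc.C + Polynomial.C s * Polynomial.X :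
            Polynomial (RatFunc ℂ)), Polynomial.X]
            (MvPolynomial.map RatFunc.C (MvPolynomial.X 1 ^ n) + MvPolynomial.C s *
              MvPolynomial.map RatFunc.C (0 : MvPolynomial (Fin 2) ℂ)) = Polynomial.X ^ n := by
          rw [map_zero, mul_zero, add_zero, map_pow, map_pow, MvPolynomial.map_X,
            MvPolynomial.aeval_X]
          rfl
        show _ ∣ MvPolynomial.aeval ![(f.map RatFunc.C + Polynomial.C s * Polynomial.X :
            Polynomial (RatFunc ℂ)), Polynomial.X]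
            (MvPolynomial.map RatFunc.C (MvPolynomial.X 1 ^ n) + MvPolynomial.C s *
              MvPolynomial.map RatFunc.C (0 : MvPolynomial (Fin 2) ℂ))
        rw [e]
    · intro i m
      refine ⟨0, 1, by simp, ?_⟩
      have hC : ∀ c : ℂ, j0 (Polynomial.C c) = RatFunc.C c := fun c => rfl
      rw [MvPolynomial.coeff_add, MvPolynomial.coeff_C_mul, MvPolynomial.coeff_map,
        MvPolynomial.coeff_map, map_add, map_mul, hC, hC, ← hs, sub_self, zero_mul, mul_zero,
        map_zero]

end Pool.Agent.Y756.HB
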