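import Mathlib
import Pool.Agent.Y756.HB.Main
import Pool.Agent.Y756.HB.Gen
import Pool.Agent.Y756.HB.Pts

set_option autoImplicit false

/-! Interpolation by smooth rational curves: finitely many good ideals at given points of the line,
colength at least four. -/

namespace Pool.Agent.Y756.HB

open MP4403b8

theorem interp_main (n : ℕ) (hn : 4 ≤ n) {r : Type} [Fintype r]
    (K : r → Ideal (MvPolynomial (Fin 2) ℂ)) (hKi : Function.Injective K)
    (hK : ∀ j, IsHilbPoint n ℂ (K j)) (gK : ∀ j, Good n (K j))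
    (yK : ∀ j, (MvPolynomial.X 1 : MvPolynomial (Fin 2) ℂ) ∉ K j)
    (pt : r → ℂ) (hpt : Function.Injective pt) :
    ∃ F : P1Family n, F.IsClosedEmbedding ∧ (∀ j, F.value ((pt j : ℂ) : OnePoint ℂ) = K j) ∧
      F.value OnePoint.infty = Col n 1 := by
  classical
  choose m G0 G1 hG0' hG1 harc using gK
  choose i0 hi0 using hG1
  have mK : ∀ j, ∃ g : Polynomial ℂ, (∃ g' : Polynomial ℂ, K j = JJ n g') → K j = JJ n g := by
    intro j
    by_cases hj : ∃ g' : Polynomial ℂ, K j = JJ n g'
    · obtain ⟨g, hg⟩ := hj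
      exact ⟨g, fun _ => hg⟩
    · exact ⟨0, fun h => absurd h hj⟩
  choose gg hgg using mK
  obtain ⟨N, M, B, hint⟩ := interpolate' n pt hpt (fun j => Fin (m j)) G0 G1
    (fun j => harc j (pt j))
  set D : Polynomial ℂ := DD pt with hD
  have hDm : D.Monic := by
    rw [hD]
    exact Polynomial.monic_prod_of_monic _ _ fun j _ => Polynomial.monic_X_sub_C (pt j)
  have hDev : ∀ a : ℂ, (∀ j, a ≠ pt j) → D.eval a ≠ 0 := by
    intro a ha
    rw [hD]
    unfold DD
    rw [Polynomial.eval_prod, Finset.prod_ne_zero_iff]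
    intro j _
    rw [Polynomial.eval_sub, Polynomial.eval_X, Polynomial.eval_C]
    exact sub_ne_zero.mpr (ha j)
  set Q : Polynomial ℂ := D ^ N with hQ
  set H : Polynomial ℂ := D ^ M with hH
  have hQm : Q.Monic := hDm.pow N
  have hHm : H.Monic := hDm.pow M
  obtain ⟨nq, hQdeg⟩ : ∃ nq, Q.natDegree = nq := ⟨_, rfl⟩
  obtain ⟨nh, hHdeg⟩ : ∃ nh, H.natDegree = nh := ⟨_, rfl⟩
  have hQev : ∀ a : ℂ, (∀ j, a ≠ pt j) → Q.eval a ≠ 0 := by
    intro a ha
    rw [hQ, Polynomial.eval_pow]
    exact pow_ne_zero _ (hDev a ha)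
  have hHev : ∀ a : ℂ, (∀ j, a ≠ pt j) → H.eval a ≠ 0 := by
    intro a ha
    rw [hH, Polynomial.eval_pow]
    exact pow_ne_zero _ (hDev a ha)
  -- degrees
  obtain ⟨S, hS⟩ : ∃ S : ℕ, ∀ i ≤ n, (B i).natDegree ≤ S := by
    refine ⟨∑ i ∈ Finset.range (n + 1), (B i).natDegree, fun i hi => ?_⟩
    exact Finset.single_le_sum (f := fun i => (B i).natDegree) (fun _ _ => Nat.zero_le _)
      (Finset.mem_range.mpr (by omega))
  obtain ⟨e1, he1⟩ : ∃ e1 : ℕ, e1 = nq + nh + 10 + S := ⟨_, rfl⟩
  obtain ⟨e2, he2⟩ : ∃ e2 : ℕ, e2 = nq + nh + 9 + S + (n - 1) * (2 * nh + 10 + S) := ⟨_, rfl⟩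
  have hXe : ∀ e : ℕ, (Polynomial.X ^ e : Polynomial ℂ) ≠ 0 := fun e => pow_ne_zero _ Polynomial.X_ne_zero
  set P1 : Polynomial ℂ := B 1 + H * Polynomial.X ^ e1 with hP1
  have hP1deg : P1.natDegree = nh + e1 := by
    rw [hP1, natDegree_add_mul _ _ _ hHm.ne_zero (hXe _), hHdeg, Polynomial.natDegree_X_pow]
    rw [hHdeg, Polynomial.natDegree_X_pow]
    have := hS 1 (by omega)
    omega
  have hP1Q : ∀ κ : ℂ, P1 ≠ Polynomial.C κ * Q := by
    intro κ hcon
    have h1 : P1.natDegree ≤ nq := by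
      rw [hcon]
      exact (Polynomial.natDegree_C_mul_le κ Q).trans hQdeg.le
    omega
  obtain ⟨CC, hCC⟩ : ∃ CC : Set (ℂ × ℂ), CC =
    Set.range fun j => ((gg j).coeff 1, (gg j).coeff 2) := ⟨_, rfl⟩
  have hCCc : CC.Countable := by
    rw [hCC]
    exact Set.countable_range _
  obtain ⟨r1, r2, q1, q2, hgc⟩ := generic_coeffs' P1 (B 2)
    (if n = 4 then B 3 + H * Polynomial.X ^ e2 else B 3) H Q hP1Q CC hCCc
  set E : ℕ → Polynomial ℂ := fun i =>
    if i = 1 then Polynomial.X ^ e1 else
    if i = 2 then Polynomial.C r1 + Polynomial.C r2 * Polynomial.X else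
    if i = 3 then (Polynomial.C q1 + Polynomial.C q2 * Polynomial.X) +
      (if n = 4 then Polynomial.X ^ e2 else 0) else
    if i = n - 1 then Polynomial.X ^ e2 else 0 with hE
  set P : ℕ → Polynomial ℂ := fun i => B i + H * E i with hP
  have hP1' : P 1 = P1 := by simp only [hP, hE, if_true, hP1]
  have hP2' : P 2 = B 2 + H * (Polynomial.C r1 + Polynomial.C r2 * Polynomial.X) := by
    simp [hP, hE]
  have hP3' : P 3 = (if n = 4 then B 3 + H * Polynomial.X ^ e2 else B 3) +
      H * (Polynomial.C q1 + Polynomial.C q2 * Polynomial.X) := by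
    by_cases h4 : n = 4
    · simp [hP, hE, h4]; ring
    · simp [hP, hE, h4]
  obtain ⟨gc1, gc2, gc3⟩ := hgc (P 2) (P 3) hP2' hP3'
  rw [← hP1'] at gc1 gc2 gc3
  obtain ⟨F, hF⟩ : ∃ F : Polynomial (RatFunc ℂ), F = ∑ i ∈ Finset.Ico 1 n,
    Polynomial.monomial i (j0 (P i) / j0 Q) := ⟨_, rfl⟩
  have hsp := hint E F hF
  have hF0 : F.coeff 0 = 0 := by
    rw [hF, Polynomial.finsetSum_coeff]
    apply Finset.sum_eq_zero
    intro i hi
    rw [Polynomial.coeff_monomial, if_neg]
    have := (Finset.mem_Ico.mp hi).1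
    omega
  -- at infinity
  have hEn : E (n - 1) ≠ 0 ∧ (E (n - 1)).natDegree = e2 := by
    by_cases h4 : n = 4
    · have h5 : E (n - 1) = (Polynomial.C q1 + Polynomial.C q2 * Polynomial.X) +
          Polynomial.X ^ e2 := by
        subst h4; simp [hE]
      have h6 : (E (n - 1)).natDegree = e2 := by
        rw [h5, Polynomial.natDegree_add_eq_right_of_natDegree_lt]
        · rw [Polynomial.natDegree_X_pow]
        · rw [Polynomial.natDegree_X_pow]
          have := natDegree_lin q1 q2
          omega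
      refine ⟨?_, h6⟩
      intro h0
      rw [h0, Polynomial.natDegree_zero] at h6
      omega
    · have h5 : E (n - 1) = Polynomial.X ^ e2 := by
        simp only [hE]
        rw [if_neg (by omega), if_neg (by omega), if_neg (by omega)]
        simp
      rw [h5]
      exact ⟨hXe _, Polynomial.natDegree_X_pow _⟩
  have hPn : (P (n - 1)).natDegree = nh + e2 := by
    have h1 : (B (n - 1)).natDegree < H.natDegree + (E (n - 1)).natDegree := by
      have := hS (n - 1) (by omega)
      rw [hHdeg, hEn.2]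
      have : 0 ≤ (n - 1) * (2 * nh + 10 + S) := Nat.zero_le _
      omega
    simp only [hP]
    rw [natDegree_add_mul _ _ _ hHm.ne_zero hEn.1 h1, hHdeg, hEn.2]
  obtain ⟨c0, c1, κ, hc0, hκ, hspi0, hspi1⟩ := at_infinity n hn Q hQm.ne_zero P
    (by rw [hP1', hP1deg, hQdeg]; omega)
    (by
      intro i hi2 hin
      rw [hP1', hP1deg]
      have hBi := hS i (by omega)
      have hEi : (E i).natDegree ≤ 1 := by
        simp only [hE]
        rw [if_neg (by omega)]
        split_ifs with ha hb hc hd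
        · exact natDegree_lin r1 r2
        · omega
        · rw [add_zero]; exact natDegree_lin q1 q2
        · omega
        · simp
      have h1 : (P i).natDegree ≤ max (B i).natDegree (nh + 1) := by
        simp only [hP]
        refine (Polynomial.natDegree_add_le _ _).trans ?_
        apply max_le_max le_rfl
        refine (Polynomial.natDegree_mul_le).trans ?_
        omega
      have h2 : max (B i).natDegree (nh + 1) ≤ S + nh + 1 := by
        apply max_le <;> omega
      omega)
    (by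
      intro h0
      rw [h0, Polynomial.natDegree_zero] at hPn
      omega)
    (by
      rw [hP1', hP1deg, hPn, hQdeg, he1, he2]
      obtain ⟨k, rfl⟩ : ∃ k, n = k + 4 := ⟨n - 4, by omega⟩
      have : k + 4 - 1 = k + 3 := by omega
      rw [this]
      ring)
    F hF
  -- the family
  let Fm : P1Family n :=
    { I₀ := fam j0 n F
      I₁ := fam j1 n F
      hilb₀ := fam_hilb j0 isFrac_j0 n F hF0
      hilb₁ := fam_hilb j1 isFrac_j1 n F hF0
      glue := fam_glue n F }
  have v0 : ∀ j, fib (pt j) (fam j0 n F) = K j := by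
    intro j
    rw [fib_eq n _ (fam_hilb j0 isFrac_j0 n F hF0) (pt j) (G0 j) (G1 j) (hsp j)
      (by rw [hG0' j]; exact hK j), hG0' j]
  have vi : fib 0 (fam j1 n F) = Col n c0 := by
    apply fib_eq n _ (fam_hilb j1 isFrac_j1 n F hF0) 0 _
      (![MvPolynomial.C c1 * MvPolynomial.X 1 + MvPolynomial.C κ * MvPolynomial.X 0 ^ (n - 1), 0] :
        Fin 2 → MvPolynomial (Fin 2) ℂ)
    · intro i
      fin_cases i
      · exact hspi0
      · exact hspi1
    · exact hilb_col n (by omega) c0 hc0
  set f : ℂ → Polynomial ℂ := fun a =>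
    ∑ i ∈ Finset.Ico 1 n, Polynomial.monomial i ((P i).eval a / Q.eval a) with hf
  have va : ∀ a : ℂ, (∀ j, a ≠ pt j) → fib a (fam j0 n F) = JJ n (f a) := fun a ha =>
    (at_regular n (by omega) Q P a (hQev a ha) F hF).1
  have hf0 : ∀ a : ℂ, (f a).coeff 0 = 0 := by
    intro a
    simp only [hf]
    rw [coeff_sum_mono, if_neg (by simp)]
  have hfi : ∀ a : ℂ, ∀ i ∈ Finset.Ico 1 n, (f a).coeff i = (P i).eval a / Q.eval a := by
    intro a i hi
    simp only [hf]
    rw [coeff_sum_mono, if_pos hi]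
  have h1mem : (1:ℕ) ∈ Finset.Ico 1 n := Finset.mem_Ico.mpr ⟨le_refl _, by omega⟩
  have h2mem : (2:ℕ) ∈ Finset.Ico 1 n := Finset.mem_Ico.mpr ⟨by omega, by omega⟩
  have h3mem : (3:ℕ) ∈ Finset.Ico 1 n := Finset.mem_Ico.mpr ⟨by omega, by omega⟩
  have hsep : ∀ a : ℂ, (∀ j, a ≠ pt j) → ∀ j, fib a (fam j0 n F) ≠ K j := by
    intro a ha j hcon
    have h1 := hgg j ⟨f a, by rw [← hcon, va a ha]⟩
    rw [va a ha, h1] at hcon
    have hdvd := JJ_inj n (f a) (gg j) hcon
    rw [Polynomial.X_pow_dvd_iff] at hdvd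
    have hz : ∀ i ∈ Finset.Ico 1 n, (P i).eval a = (gg j).coeff i * Q.eval a := by
      intro i hi
      have h1 := hdvd i (Finset.mem_Ico.mp hi).2
      rw [Polynomial.coeff_sub, hfi a i hi, sub_eq_zero, div_eq_iff (hQev a ha)] at h1
      exact h1
    exact gc1 a (hHev a ha) (hQev a ha) ((gg j).coeff 1, (gg j).coeff 2)
      (by rw [hCC]; exact ⟨j, rfl⟩) ⟨hz 1 h1mem, hz 2 h2mem⟩
  have hneCol : ∀ a : ℂ, fib a (fam j0 n F) ≠ Col n c0 := by
    intro a hcon
    by_cases ha : ∀ j, a ≠ pt j
    · rw [va a ha] at hcon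
      exact col_ne_JJ n (by omega) c0 hc0 (f a) (hf0 a) hcon.symm
    · push Not at ha
      obtain ⟨j, rfl⟩ := ha
      rw [v0] at hcon
      apply yK j
      rw [hcon]
      exact X1_mem_Col n c0 hc0
  have hinj : ∀ a b : ℂ, fib a (fam j0 n F) = fib b (fam j0 n F) → a = b := by
    intro a b hab
    by_cases ha : ∀ j, a ≠ pt j
    · by_cases hb : ∀ j, b ≠ pt j
      · by_contra hne
        rw [va a ha, va b hb] at hab
        have hdvd := JJ_inj n (f a) (f b) hab
        rw [Polynomial.X_pow_dvd_iff] at hdvd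
        have hz : ∀ i ∈ Finset.Ico 1 n,
            (P i).eval a * Q.eval b = (P i).eval b * Q.eval a := by
          intro i hi
          have h1 := hdvd i (Finset.mem_Ico.mp hi).2
          rw [Polynomial.coeff_sub, hfi a i hi, hfi b i hi, sub_eq_zero,
            div_eq_div_iff (hQev a ha) (hQev b hb)] at h1
          exact h1
        exact gc3 a b hne (hHev a ha) (hQev a ha) (hHev b hb)
          (hQev b hb) ⟨hz 1 h1mem, hz 2 h2mem, hz 3 h3mem⟩
      · push Not at hb
        obtain ⟨j, rfl⟩ := hb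
        exfalso
        apply hsep a ha j
        rw [hab, v0]
    · push Not at ha
      obtain ⟨j, rfl⟩ := ha
      by_cases hb : ∀ j, b ≠ pt j
      · exfalso
        apply hsep b hb j
        rw [← hab, v0]
      · push Not at hb
        obtain ⟨k, rfl⟩ := hb
        rw [v0, v0] at hab
        rw [hKi hab]
  refine ⟨Fm, ⟨?_, ?_, ?_⟩, fun j => v0 j, ?_⟩
  · -- injective
    intro x y hxy
    induction x using OnePoint.rec with
    | infty =>
      induction y using OnePoint.rec with
      | infty => rfl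
      | coe b =>
        exfalso
        have h1 : fib 0 (fam j1 n F) = fib b (fam j0 n F) := hxy
        rw [vi] at h1
        exact hneCol b h1.symm
    | coe a =>
      induction y using OnePoint.rec with
      | infty =>
        exfalso
        have h1 : fib a (fam j0 n F) = fib 0 (fam j1 n F) := hxy
        rw [vi] at h1
        exact hneCol a h1
      | coe b =>
        have h1 : fib a (fam j0 n F) = fib b (fam j0 n F) := hxy
        rw [hinj a b h1]
  · -- immersive on the first chart
    intro a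
    change ¬ DiffZero a (fam j0 n F)
    by_cases ha : ∀ j, a ≠ pt j
    · apply (at_regular n (by omega) Q P a (hQev a ha) F hF).2
      have h2 := gc2 a (hHev a ha) (hQev a ha)
      by_contra hcon
      push Not at hcon
      exact h2 ⟨hcon 1 h1mem, hcon 2 h2mem⟩
    · push Not at ha
      obtain ⟨j, rfl⟩ := ha
      apply not_diffZero _ (pt j) (G0 j (i0 j)) (G1 j (i0 j)) (hsp j (i0 j))
      rw [v0]
      exact hi0 j
  · -- immersive at infinity
    change ¬ DiffZero 0 (fam j1 n F)
    apply not_diffZero _ 0 _ _ hspi0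
    rw [vi]
    intro hmem
    -- apply the evaluation x ↦ X, y ↦ 0
    let φ : MvPolynomial (Fin 2) ℂ →ₐ[ℂ] Polynomial ℂ :=
      MvPolynomial.aeval ![(Polynomial.X : Polynomial ℂ), 0]
    have hle : Col n c0 ≤ (Ideal.span {(Polynomial.X : Polynomial ℂ) ^ n}).comap φ.toRingHom := by
      unfold Col
      rw [Ideal.span_le]
      rintro _ ⟨i, rfl⟩
      fin_cases i
      · change φ (MvPolynomial.C c0 * MvPolynomial.X 1) ∈
          (Ideal.span {(Polynomial.X : Polynomial ℂ) ^ n} : Ideal (Polynomial ℂ))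
        have : φ (MvPolynomial.C c0 * MvPolynomial.X 1) = 0 := by
          simp [φ]
        rw [this]
        exact Submodule.zero_mem _
      · change φ (MvPolynomial.X 0 ^ n) ∈
          (Ideal.span {(Polynomial.X : Polynomial ℂ) ^ n} : Ideal (Polynomial ℂ))
        have : φ (MvPolynomial.X 0 ^ n) = Polynomial.X ^ n := by
          simp [φ]
        rw [this]
        exact Ideal.mem_span_singleton_self _
    have h1 := hle hmem
    have h2 : φ (MvPolynomial.C c1 * MvPolynomial.X 1 +
        MvPolynomial.C κ * MvPolynomial.X 0 ^ (n - 1)) =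
        Polynomial.C κ * Polynomial.X ^ (n - 1) := by
      simp [φ]
    have h3 : (Polynomial.X : Polynomial ℂ) ^ n ∣ Polynomial.C κ * Polynomial.X ^ (n - 1) := by
      rw [← h2]
      exact Ideal.mem_span_singleton.mp h1
    rw [Polynomial.X_pow_dvd_iff] at h3
    have h4 := h3 (n - 1) (by omega)
    rw [Polynomial.coeff_C_mul_X_pow, if_pos rfl] at h4
    exact hκ h4
  · change fib 0 (fam j1 n F) = Col n 1
    rw [vi, Col_eq (by omega) c0 hc0]

end Pool.Agent.Y756.HB
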