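import Mathlib
import Pool.Agent.Y756.HB.Pts

set_option autoImplicit false

/-! The substitutions `x ↦ x - h(y)`. -/

namespace Pool.Agent.Y756.HB

open MP4403b8

/-- the substitution `x ↦ x - h(y)` over a ring -/
noncomputable def shR {R : Type*} [CommRing R] (φ : ℂ →+* R) (h : Polynomial ℂ) :
    MvPolynomial (Fin 2) R →ₐ[R] MvPolynomial (Fin 2) R :=
  MvPolynomial.aeval ![MvPolynomial.X 0 - MvPolynomial.map φ (inY h), MvPolynomial.X 1]

lemma shR_X0 {R : Type*} [CommRing R] (φ : ℂ →+* R) (h : Polynomial ℂ) :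
    shR φ h (MvPolynomial.X 0) = MvPolynomial.X 0 - MvPolynomial.map φ (inY h) := by
  unfold shR
  rw [MvPolynomial.aeval_X]
  rfl

lemma shR_X1 {R : Type*} [CommRing R] (φ : ℂ →+* R) (h : Polynomial ℂ) :
    shR φ h (MvPolynomial.X 1) = MvPolynomial.X 1 := by
  unfold shR
  rw [MvPolynomial.aeval_X]
  rfl

lemma shR_C {R : Type*} [CommRing R] (φ : ℂ →+* R) (h : Polynomial ℂ) (c : R) :
    shR φ h (MvPolynomial.C c) = MvPolynomial.C c := (shR φ h).commutes c

lemma map_shR {R S : Type*} [CommRing R] [CommRing S] (φ : ℂ →+* R) (ψ : R →+* S)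
    (h : Polynomial ℂ) (g : MvPolynomial (Fin 2) R) :
    MvPolynomial.map ψ (shR φ h g) = shR (ψ.comp φ) h (MvPolynomial.map ψ g) := by
  have e : (MvPolynomial.map ψ).comp (shR φ h).toRingHom =
      (shR (ψ.comp φ) h).toRingHom.comp (MvPolynomial.map ψ) := by
    apply MvPolynomial.ringHom_ext
    · intro c
      show MvPolynomial.map ψ (shR φ h (MvPolynomial.C c)) =
        shR (ψ.comp φ) h (MvPolynomial.map ψ (MvPolynomial.C c))
      rw [shR_C, MvPolynomial.map_C, shR_C]
    · intro i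
      show MvPolynomial.map ψ (shR φ h (MvPolynomial.X i)) =
        shR (ψ.comp φ) h (MvPolynomial.map ψ (MvPolynomial.X i))
      fin_cases i
      · show MvPolynomial.map ψ (shR φ h (MvPolynomial.X 0)) =
          shR (ψ.comp φ) h (MvPolynomial.map ψ (MvPolynomial.X 0))
        rw [shR_X0, map_sub, MvPolynomial.map_X, shR_X0, MvPolynomial.map_map]
      · show MvPolynomial.map ψ (shR φ h (MvPolynomial.X 1)) =
          shR (ψ.comp φ) h (MvPolynomial.map ψ (MvPolynomial.X 1))
        rw [shR_X1, MvPolynomial.map_X, shR_X1]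
  exact RingHom.congr_fun e g

/-- the substitution `x ↦ x - h(y)` -/
noncomputable def shear (h : Polynomial ℂ) :
    MvPolynomial (Fin 2) ℂ →ₐ[ℂ] MvPolynomial (Fin 2) ℂ :=
  MvPolynomial.aeval ![MvPolynomial.X 0 -
    Polynomial.aeval (MvPolynomial.X 1 : MvPolynomial (Fin 2) ℂ) h, MvPolynomial.X 1]

lemma shear_eq (h : Polynomial ℂ) (g : MvPolynomial (Fin 2) ℂ) :
    shear h g = shR (RingHom.id ℂ) h g := by
  unfold shear shR
  rw [MvPolynomial.map_id]
  rfl

lemma map_shear {R : Type*} [CommRing R] (φ : ℂ →+* R) (h : Polynomial ℂ)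
    (g : MvPolynomial (Fin 2) ℂ) :
    MvPolynomial.map φ (shear h g) = shR φ h (MvPolynomial.map φ g) := by
  rw [shear_eq, map_shR, RingHom.comp_id]

lemma shear_X0 (h : Polynomial ℂ) : shear h (MvPolynomial.X 0) = MvPolynomial.X 0 - inY h := by
  unfold shear
  rw [MvPolynomial.aeval_X]
  rfl

lemma shear_X1 (h : Polynomial ℂ) : shear h (MvPolynomial.X 1) = MvPolynomial.X 1 := by
  unfold shear
  rw [MvPolynomial.aeval_X]
  rfl

lemma shear_inY (h g : Polynomial ℂ) : shear h (inY g) = inY g := by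
  unfold inY
  rw [← Polynomial.aeval_algHom_apply, shear_X1]

lemma shear_shear (h k : Polynomial ℂ) (hk : h + k = 0) (g : MvPolynomial (Fin 2) ℂ) :
    shear h (shear k g) = g := by
  have e : (shear h).comp (shear k) = AlgHom.id ℂ _ := by
    apply MvPolynomial.algHom_ext
    intro i
    show shear h (shear k (MvPolynomial.X i)) = MvPolynomial.X i
    fin_cases i
    · show shear h (shear k (MvPolynomial.X 0)) = MvPolynomial.X 0
      rw [shear_X0, map_sub, shear_X0, shear_inY]
      have : inY h + inY k = 0 := by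
        unfold inY
        rw [← map_add, hk, map_zero]
      linear_combination -this
    · show shear h (shear k (MvPolynomial.X 1)) = MvPolynomial.X 1
      rw [shear_X1, shear_X1]
  exact congrArg (fun φ : MvPolynomial (Fin 2) ℂ →ₐ[ℂ] MvPolynomial (Fin 2) ℂ => φ g) e

/-- the image of an ideal under the substitution `x ↦ x - h(y)` -/
noncomputable def shI (h : Polynomial ℂ) (K : Ideal (MvPolynomial (Fin 2) ℂ)) :
    Ideal (MvPolynomial (Fin 2) ℂ) :=
  K.map (shear h)

lemma mem_shI (h : Polynomial ℂ) (K : Ideal (MvPolynomial (Fin 2) ℂ))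
    (g : MvPolynomial (Fin 2) ℂ) : shear h g ∈ shI h K ↔ g ∈ K := by
  constructor
  · intro hg
    have hle : shI h K ≤ K.comap (shear (-h)) := by
      unfold shI
      rw [Ideal.map_le_iff_le_comap]
      intro x hx
      rw [Ideal.mem_comap, Ideal.mem_comap, shear_shear _ _ (neg_add_cancel h)]
      exact hx
    have h1 := hle hg
    rwa [Ideal.mem_comap, shear_shear _ _ (neg_add_cancel h)] at h1
  · intro hg
    exact Ideal.mem_map_of_mem (shear h) hg

/-- the automorphism -/
noncomputable def shearE (h : Polynomial ℂ) :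
    MvPolynomial (Fin 2) ℂ ≃ₐ[ℂ] MvPolynomial (Fin 2) ℂ :=
  AlgEquiv.ofAlgHom (shear h) (shear (-h))
    (AlgHom.ext fun x => shear_shear _ _ (add_neg_cancel h) x)
    (AlgHom.ext fun x => shear_shear _ _ (neg_add_cancel h) x)

theorem hilb_shI (n : ℕ) (h : Polynomial ℂ) (K : Ideal (MvPolynomial (Fin 2) ℂ))
    (hK : IsHilbPoint n ℂ K) : IsHilbPoint n ℂ (shI h K) := by
  obtain ⟨h1, h2, h3⟩ := hK
  have e : (MvPolynomial (Fin 2) ℂ ⧸ K) ≃ₐ[ℂ] (MvPolynomial (Fin 2) ℂ ⧸ shI h K) :=
    Ideal.quotientEquivAlg K (shI h K) (shearE h) rfl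
  refine ⟨Module.Finite.equiv e.toLinearEquiv, Module.Free.of_equiv e.toLinearEquiv, ?_⟩
  rw [← h3]
  exact e.toLinearEquiv.finrank_eq.symm

lemma aeval_shR (F : Polynomial (RatFunc ℂ)) (h : Polynomial ℂ)
    (g : MvPolynomial (Fin 2) (RatFunc ℂ)) :
    MvPolynomial.aeval ![F + h.map RatFunc.C, Polynomial.X] (shR RatFunc.C h g) =
      MvPolynomial.aeval ![F, Polynomial.X] g := by
  have e : (MvPolynomial.aeval ![F + h.map RatFunc.C, Polynomial.X] :
      MvPolynomial (Fin 2) (RatFunc ℂ) →ₐ[RatFunc ℂ] Polynomial (RatFunc ℂ)).comp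
      (shR RatFunc.C h) = MvPolynomial.aeval ![F, Polynomial.X] := by
    apply MvPolynomial.algHom_ext
    intro i
    show MvPolynomial.aeval ![F + h.map RatFunc.C, Polynomial.X]
      (shR RatFunc.C h (MvPolynomial.X i)) = MvPolynomial.aeval ![F, Polynomial.X] (MvPolynomial.X i)
    fin_cases i
    · show MvPolynomial.aeval ![F + h.map RatFunc.C, Polynomial.X]
        (shR RatFunc.C h (MvPolynomial.X 0)) = MvPolynomial.aeval ![F, Polynomial.X] (MvPolynomial.X 0)
      rw [shR_X0, map_sub, eval_map_inY, MvPolynomial.aeval_X, MvPolynomial.aeval_X]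
      show F + h.map RatFunc.C - h.map RatFunc.C = F
      ring
    · show MvPolynomial.aeval ![F + h.map RatFunc.C, Polynomial.X]
        (shR RatFunc.C h (MvPolynomial.X 1)) = MvPolynomial.aeval ![F, Polynomial.X] (MvPolynomial.X 1)
      rw [shR_X1, MvPolynomial.aeval_X, MvPolynomial.aeval_X]
      rfl
  exact congrArg (fun φ : MvPolynomial (Fin 2) (RatFunc ℂ) →ₐ[RatFunc ℂ]
    Polynomial (RatFunc ℂ) => φ g) e

theorem arc_shear (n : ℕ) (a : ℂ) (h : Polynomial ℂ) (h0 : h.coeff 0 = 0) (hn : h.natDegree < n)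
    {ι : Type} (G0 G1 : ι → MvPolynomial (Fin 2) ℂ) (H : Arc n a G0 G1) :
    Arc n a (fun i => shear h (G0 i)) (fun i => shear h (G1 i)) := by
  obtain ⟨f, hf0, hfn, g, hg, hgc⟩ := H
  refine ⟨f + h.map RatFunc.C, ?_, ?_, fun i => shR RatFunc.C h (g i), ?_, ?_⟩
  · rw [Polynomial.coeff_add, hf0, Polynomial.coeff_map, h0, map_zero, add_zero]
  · exact lt_of_le_of_lt (Polynomial.natDegree_add_le _ _)
      (max_lt hfn (lt_of_le_of_lt Polynomial.natDegree_map_le hn))
  · intro i
    rw [mem_JJ, aeval_shR, ← mem_JJ]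
    exact hg i
  · intro i m
    have hC : ∀ c : ℂ, j0 (Polynomial.C c) = RatFunc.C c := fun c => rfl
    obtain ⟨s, hs⟩ : ∃ s : RatFunc ℂ, s = j0 (Polynomial.X - Polynomial.C a) := ⟨_, rfl⟩
    have hs0 : s ≠ 0 := by
      rw [hs]
      exact j0_ne (Polynomial.X_sub_C_ne_zero a)
    have hs2 : j0 ((Polynomial.X - Polynomial.C a) ^ 2) = s ^ 2 := by
      rw [map_pow, ← hs]
    -- the remainder
    obtain ⟨w, hw⟩ := lift_mv a (MvPolynomial.C (s ^ 2)⁻¹ * (g i -
      (MvPolynomial.map RatFunc.C (G0 i) + MvPolynomial.C s * MvPolynomial.map RatFunc.C (G1 i)))) (by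
      intro m
      obtain ⟨p, q, hq, hpq⟩ := hgc i m
      refine ⟨p, q, hq, ?_⟩
      rw [MvPolynomial.coeff_C_mul, MvPolynomial.coeff_sub, MvPolynomial.coeff_add,
        MvPolynomial.coeff_C_mul, MvPolynomial.coeff_map, MvPolynomial.coeff_map]
      rw [map_add, map_mul, hC, hC, ← hs, map_mul, hs2] at hpq
      rw [mul_assoc, hpq, inv_mul_cancel_left₀ (pow_ne_zero 2 hs0)])
    have hg' : g i = (MvPolynomial.map RatFunc.C (G0 i) + MvPolynomial.C s *
        MvPolynomial.map RatFunc.C (G1 i)) + MvPolynomial.C (s ^ 2) *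
          MvPolynomial.map (Oc a).subtype w := by
      rw [hw, ← mul_assoc, ← MvPolynomial.C_mul, mul_inv_cancel₀ (pow_ne_zero 2 hs0),
        MvPolynomial.C_1]
      ring
    have hsub : (Oc a).subtype.comp ((jO a).comp Polynomial.C) = RatFunc.C := by
      rw [← RingHom.comp_assoc, subtype_comp_jO]
      exact RingHom.ext hC
    have hsh : shR RatFunc.C h (MvPolynomial.map (Oc a).subtype w) =
        MvPolynomial.map (Oc a).subtype (shR ((jO a).comp Polynomial.C) h w) := by
      rw [map_shR, hsub]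
    have hmem : MvPolynomial.coeff m (MvPolynomial.map (Oc a).subtype
        (shR ((jO a).comp Polynomial.C) h w)) ∈ Oc a := by
      rw [MvPolynomial.coeff_map]
      exact (MvPolynomial.coeff m (shR ((jO a).comp Polynomial.C) h w)).2
    obtain ⟨p, q, hq, hpq⟩ := hmem
    refine ⟨p, q, hq, ?_⟩
    show (MvPolynomial.coeff m (shR RatFunc.C h (g i)) - _) * j0 q = _
    rw [hg', map_add, map_add, map_mul, map_mul, shR_C, shR_C, ← map_shear, ← map_shear, hsh,
      MvPolynomial.coeff_add, MvPolynomial.coeff_add, MvPolynomial.coeff_C_mul,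
      MvPolynomial.coeff_C_mul, MvPolynomial.coeff_map RatFunc.C, MvPolynomial.coeff_map RatFunc.C,
      map_add j0, map_mul j0, hC, hC, ← hs, map_mul j0, hs2, ← hpq]
    ring

theorem good_shear (n : ℕ) (h : Polynomial ℂ) (h0 : h.coeff 0 = 0) (hn : h.natDegree < n)
    (K : Ideal (MvPolynomial (Fin 2) ℂ)) (hK : Good n K) : Good n (shI h K) := by
  obtain ⟨m, G0, G1, hG0, ⟨i, hi⟩, harc⟩ := hK
  refine ⟨m, fun i => shear h (G0 i), fun i => shear h (G1 i), ?_, ⟨i, ?_⟩,
    fun a => arc_shear n a h h0 hn G0 G1 (harc a)⟩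
  · rw [← hG0]
    unfold shI
    rw [Ideal.map_span, ← Set.range_comp]
    rfl
  · rw [mem_shI]
    exact hi

end Pool.Agent.Y756.HB
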