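import Mathlib
import Pool.Agent.Y756.HB.All
import Pool.Agent.Y756.HB.Main2
import Pool.Agent.Y756.HB.Shear

set_option autoImplicit false

/-! One smooth rational curve through all monomial ideals and through finitely many further ideals at
given points of the line. -/

namespace Pool.Agent.Y756.HB

open MP4403b8

lemma exists_pts {r s : Type} [Finite r] [Finite s] (a : r → ℂ) :
    ∃ b : s → ℂ, Function.Injective b ∧ ∀ i j, a j ≠ b i := by
  have h1 : ((Set.range a)ᶜ).Infinite := (Set.finite_range a).infinite_compl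
  have h2 : Infinite ((Set.range a)ᶜ : Set ℂ) := h1.to_subtype
  let e := Infinite.natEmbedding ((Set.range a)ᶜ : Set ℂ)
  refine ⟨fun i => (e (Finite.equivFin s i : ℕ)).1, ?_, ?_⟩
  · intro i j hij
    have h3 := e.injective (Subtype.ext hij)
    exact (Finite.equivFin s).injective (Fin.ext h3)
  · intro i j hij
    exact (e (Finite.equivFin s i : ℕ)).2 ⟨j, hij⟩

theorem full (n : ℕ) (hn : 4 ≤ n) {r : Type} [Finite r]
    (M : r → Ideal (MvPolynomial (Fin 2) ℂ)) (h : r → Polynomial ℂ) (a : r → ℂ)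
    (hM : ∀ j, IsHilbPoint n ℂ (M j)) (mM : ∀ j, IsMonomialIdeal (M j))
    (yM : ∀ j, (MvPolynomial.X 1 : MvPolynomial (Fin 2) ℂ) ∉ M j)
    (h0 : ∀ j, (h j).coeff 0 = 0) (hd : ∀ j, (h j).natDegree < n)
    (hi : Function.Injective fun j => shI (h j) (M j)) (ha : Function.Injective a) :
    ∃ F : P1Family n, F.IsClosedEmbedding ∧
      (∀ K : Ideal (MvPolynomial (Fin 2) ℂ), IsHilbPoint n ℂ K → IsMonomialIdeal K →
        K ∈ Set.range F.value) ∧
      ∀ j, F.value ((a j : ℂ) : OnePoint ℂ) = shI (h j) (M j) := by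
  classical
  let KK : r → Ideal (MvPolynomial (Fin 2) ℂ) := fun j => shI (h j) (M j)
  let s : Type := {K : Ideal (MvPolynomial (Fin 2) ℂ) //
    (IsHilbPoint n ℂ K ∧ IsMonomialIdeal K) ∧
      (MvPolynomial.X 1 : MvPolynomial (Fin 2) ℂ) ∉ K ∧ K ∉ Set.range KK}
  have hfin : Finite s := ((finite_mon n).subset (fun K (hK : (IsHilbPoint n ℂ K ∧
    IsMonomialIdeal K) ∧ (MvPolynomial.X 1 : MvPolynomial (Fin 2) ℂ) ∉ K ∧
      K ∉ Set.range KK) => hK.1)).to_subtype
  obtain ⟨b, hb, hab⟩ := exists_pts (r := r) (s := s) a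
  have : Fintype (r ⊕ s) := Fintype.ofFinite _
  let L : r ⊕ s → Ideal (MvPolynomial (Fin 2) ℂ) := Sum.elim KK (fun K => K.1)
  let pt : r ⊕ s → ℂ := Sum.elim a b
  obtain ⟨F, hF, hv, hc⟩ := interp_main n hn L
    (by
      rintro (j | K) (j' | K') hjj
      · exact congrArg Sum.inl (hi hjj)
      · exact absurd ⟨j, hjj⟩ K'.2.2.2
      · exact absurd ⟨j', hjj.symm⟩ K.2.2.2
      · exact congrArg Sum.inr (Subtype.ext hjj))
    (by
      rintro (j | K)
      · exact hilb_shI n (h j) (M j) (hM j)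
      · exact K.2.1.1)
    (by
      rintro (j | K)
      · exact good_shear n (h j) (h0 j) (hd j) (M j) (good_mon n (by omega) (M j) (hM j) (mM j))
      · exact good_mon n (by omega) K.1 K.2.1.1 K.2.1.2)
    (by
      rintro (j | K)
      · intro hmem
        apply yM j
        rw [← mem_shI (h j), shear_X1]
        exact hmem
      · exact K.2.2.1)
    pt
    (by
      rintro (j | K) (j' | K') hjj
      · exact congrArg Sum.inl (ha hjj)
      · exact absurd hjj (hab K' j)
      · exact absurd hjj.symm (hab K j')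
      · exact congrArg Sum.inr (hb hjj))
  refine ⟨F, hF, fun K hK mK => ?_, fun j => hv (Sum.inl j)⟩
  by_cases h1 : (MvPolynomial.X 1 : MvPolynomial (Fin 2) ℂ) ∈ K
  · rw [aux_col (by omega) hK mK h1]
    exact ⟨OnePoint.infty, hc⟩
  · by_cases h2 : K ∈ Set.range KK
    · obtain ⟨j, rfl⟩ := h2
      exact ⟨_, hv (Sum.inl j)⟩
    · exact ⟨_, hv (Sum.inr ⟨K, ⟨hK, mK⟩, h1, h2⟩)⟩

end Pool.Agent.Y756.HB
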