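import Mathlib
import Pool.Agent.Y756.HB.Shear

set_option autoImplicit false

/-! Interchange of the coordinates. -/

namespace Pool.Agent.Y756.HB

open MP4403b8

section field

variable {L : Type*} [Field L]

/-- substitution of congruent polynomials -/
lemma aeval_congr (n : ℕ) (u v : Fin 2 → Polynomial L)
    (h : ∀ i, (Polynomial.X : Polynomial L) ^ n ∣ u i - v i) (g : MvPolynomial (Fin 2) L) :
    (Polynomial.X : Polynomial L) ^ n ∣ MvPolynomial.aeval u g - MvPolynomial.aeval v g := by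
  have e : ∀ w : Fin 2 → Polynomial L,
      Ideal.Quotient.mkₐ L (Ideal.span {(Polynomial.X : Polynomial L) ^ n})
        (MvPolynomial.aeval w g) = MvPolynomial.aeval (fun i =>
          Ideal.Quotient.mkₐ L (Ideal.span {(Polynomial.X : Polynomial L) ^ n}) (w i)) g := by
    intro w
    have e1 : (Ideal.Quotient.mkₐ L (Ideal.span {(Polynomial.X : Polynomial L) ^ n})).comp
        (MvPolynomial.aeval w) = MvPolynomial.aeval (fun i =>
          Ideal.Quotient.mkₐ L (Ideal.span {(Polynomial.X : Polynomial L) ^ n}) (w i)) := by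
      apply MvPolynomial.algHom_ext
      intro i
      rw [AlgHom.comp_apply, MvPolynomial.aeval_X, MvPolynomial.aeval_X]
    rw [← e1, AlgHom.comp_apply]
  have h2 : (fun i => Ideal.Quotient.mkₐ L (Ideal.span {(Polynomial.X : Polynomial L) ^ n}) (u i)) =
      (fun i => Ideal.Quotient.mkₐ L (Ideal.span {(Polynomial.X : Polynomial L) ^ n}) (v i)) := by
    funext i
    exact Ideal.Quotient.eq.2 (Ideal.mem_span_singleton.2 (h i))
  have h3 := e u
  rw [h2, ← e v] at h3
  exact Ideal.mem_span_singleton.1 (Ideal.Quotient.eq.1 h3)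

lemma comp_congr (n : ℕ) (F u v : Polynomial L)
    (h : (Polynomial.X : Polynomial L) ^ n ∣ u - v) :
    (Polynomial.X : Polynomial L) ^ n ∣ F.comp u - F.comp v :=
  h.trans (by
    have := Polynomial.sub_dvd_eval_sub u v (F.map Polynomial.C)
    rw [Polynomial.eval_map, Polynomial.eval_map] at this
    exact this)

/-- the compositional inverse modulo a power of `X` -/
lemma exists_inv (F : Polynomial L) (h0 : F.coeff 0 = 0) (h1 : F.coeff 1 ≠ 0) (n : ℕ) :
    ∃ G : Polynomial L, G.coeff 0 = 0 ∧ (Polynomial.X : Polynomial L) ^ (n + 1) ∣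
      F.comp G - Polynomial.X := by
  obtain ⟨F', hF'⟩ : ∃ F' : Polynomial L, F = Polynomial.X * F' :=
    Polynomial.X_dvd_iff.2 h0
  obtain ⟨K, hK⟩ : ∃ K : Polynomial L, F = Polynomial.C (F.coeff 1) * Polynomial.X +
      Polynomial.X ^ 2 * K := by
    have h2 : (Polynomial.X : Polynomial L) ^ 2 ∣ F - Polynomial.C (F.coeff 1) * Polynomial.X := by
      rw [Polynomial.X_pow_dvd_iff]
      intro d hd
      rw [Polynomial.coeff_sub, Polynomial.coeff_C_mul, Polynomial.coeff_X]
      interval_cases d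
      · simp [h0]
      · simp
    obtain ⟨K, hK⟩ := h2
    exact ⟨K, by rw [← hK]; ring⟩
  induction n with
  | zero =>
    refine ⟨0, Polynomial.coeff_zero 0, ?_⟩
    rw [zero_add, pow_one, Polynomial.comp_zero, hF']
    simp
  | succ n ih =>
    obtain ⟨G, hG0, hG⟩ := ih
    obtain ⟨R, hR⟩ := hG
    obtain ⟨c, hc⟩ : ∃ c : L, c = R.coeff 0 := ⟨_, rfl⟩
    obtain ⟨R', hR'⟩ : ∃ R' : Polynomial L, R = Polynomial.C c + Polynomial.X * R' := by
      have h2 : (Polynomial.X : Polynomial L) ∣ R - Polynomial.C c := by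
        rw [Polynomial.X_dvd_iff, Polynomial.coeff_sub, Polynomial.coeff_C_zero, hc, sub_self]
      obtain ⟨R', h3⟩ := h2
      exact ⟨R', by rw [← h3]; ring⟩
    obtain ⟨G', hG'⟩ : ∃ G' : Polynomial L, G = Polynomial.X * G' := Polynomial.X_dvd_iff.2 hG0
    obtain ⟨d, hd⟩ : ∃ d : L, d = c / F.coeff 1 := ⟨_, rfl⟩
    have hdc : F.coeff 1 * d = c := by
      rw [hd, mul_div_cancel₀ _ h1]
    set E : Polynomial L := -(Polynomial.C d * Polynomial.X ^ (n + 1)) with hE
    refine ⟨G + E, ?_, ?_⟩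
    · rw [Polynomial.coeff_add, hG0, hE, Polynomial.coeff_neg, Polynomial.coeff_C_mul_X_pow,
        if_neg (by omega)]
      simp
    · obtain ⟨W, hW⟩ : (E : Polynomial L) ∣ K.comp (G + E) - K.comp G := by
        have := Polynomial.sub_dvd_eval_sub (G + E) G (K.map Polynomial.C)
        rw [Polynomial.eval_map, Polynomial.eval_map, add_sub_cancel_left] at this
        exact this
      have e1 : F.comp (G + E) = Polynomial.C (F.coeff 1) * (G + E) + (G + E) ^ 2 * K.comp (G + E) := by
        conv_lhs => rw [hK]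
        simp
      have e2 : F.comp G = Polynomial.C (F.coeff 1) * G + G ^ 2 * K.comp G := by
        conv_lhs => rw [hK]
        simp
      have e3 : Polynomial.C (F.coeff 1) * Polynomial.C d = Polynomial.C c := by
        rw [← Polynomial.C_mul, hdc]
      have e4 : K.comp (G + E) = K.comp G + E * W := by rw [← hW]; ring
      refine ⟨R' - Polynomial.C d * (2 * G' - Polynomial.C d * Polynomial.X ^ n) * K.comp G -
        Polynomial.C d * (Polynomial.X * (G' - Polynomial.C d * Polynomial.X ^ n) ^ 2) * W, ?_⟩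
      rw [e1, e4]
      have e5 : F.comp G = Polynomial.X + Polynomial.X ^ (n + 1) * R := by rw [← hR]; ring
      rw [e2, hR'] at e5
      rw [hE]
      have e6 : Polynomial.C (F.coeff 1) * G = Polynomial.X + Polynomial.X ^ (n + 1) *
          (Polynomial.C c + Polynomial.X * R') - G ^ 2 * K.comp G := by
        rw [← e5]; ring
      rw [mul_add, e6, hG']
      linear_combination (-(Polynomial.X ^ (n + 1))) * e3

end field

/-- An arc of curvilinear ideals, as a family. -/
lemma arc_of_special (n : ℕ) (a : ℂ) {ι : Type} (G0 G1 : ι → MvPolynomial (Fin 2) ℂ)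
    (F : Polynomial (RatFunc ℂ)) (hF0 : F.coeff 0 = 0) (hFn : F.natDegree < n)
    (h : ∀ i, Special (fam j0 n F) a (G0 i) (G1 i)) : Arc n a G0 G1 := by
  choose r hr using h
  refine ⟨F, hF0, hFn, fun i => MvPolynomial.map j0 (MvPolynomial.map Polynomial.C (G0 i)
      + MvPolynomial.C (Polynomial.X - Polynomial.C a) * MvPolynomial.map Polynomial.C (G1 i)
      + MvPolynomial.C ((Polynomial.X - Polynomial.C a) ^ 2) * r i), ?_, ?_⟩
  · intro i
    exact Ideal.mem_comap.1 (hr i)
  · intro i m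
    refine ⟨MvPolynomial.coeff m (r i), 1, by simp, ?_⟩
    rw [MvPolynomial.coeff_map, MvPolynomial.coeff_add, MvPolynomial.coeff_add,
      MvPolynomial.coeff_C_mul, MvPolynomial.coeff_C_mul, MvPolynomial.coeff_map,
      MvPolynomial.coeff_map, map_one, mul_one, ← map_sub]
    congr 1
    ring

lemma special_of_arc (n : ℕ) (hn : 2 ≤ n) (a : ℂ) {ι : Type} (G0 G1 : ι → MvPolynomial (Fin 2) ℂ)
    (H : Arc n a G0 G1) : ∃ F : Polynomial (RatFunc ℂ), F.coeff 0 = 0 ∧ F.natDegree < n ∧
      F.coeff 1 ≠ 0 ∧ ∀ i, Special (fam j0 n F) a (G0 i) (G1 i) := by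
  obtain ⟨f, hf0, hfn, g, hg, hgc⟩ := H
  by_cases h1 : f.coeff 1 = 0
  · refine ⟨f + Polynomial.C (j0 ((Polynomial.X - Polynomial.C a) ^ 2)) * Polynomial.X, ?_, ?_, ?_, ?_⟩
    · simp [hf0]
    · refine lt_of_le_of_lt (Polynomial.natDegree_add_le _ _) (max_lt hfn ?_)
      refine lt_of_le_of_lt (Polynomial.natDegree_C_mul_le _ _) ?_
      rw [Polynomial.natDegree_X]
      omega
    · rw [Polynomial.coeff_add, h1, zero_add, Polynomial.coeff_C_mul, Polynomial.coeff_X_one, mul_one]
      exact j0_ne (pow_ne_zero _ (Polynomial.X_sub_C_ne_zero a))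
    · intro i
      refine point n a (G0 i) (G1 i) f _ ?_ (g i) (hg i) (hgc i)
      intro k
      refine ⟨(Polynomial.X : Polynomial (RatFunc ℂ)).coeff k, ?_, ?_⟩
      · rw [Polynomial.coeff_X]
        split_ifs
        · exact one_mem _
        · exact zero_mem _
      · rw [Polynomial.coeff_add, Polynomial.coeff_C_mul]
        ring
  · refine ⟨f, hf0, hfn, h1, fun i => point n a (G0 i) (G1 i) f f ?_ (g i) (hg i) (hgc i)⟩
    intro k
    exact ⟨0, zero_mem _, by simp⟩

/-- interchange of the variables -/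
noncomputable def swp (R : Type*) [CommRing R] :
    MvPolynomial (Fin 2) R →ₐ[R] MvPolynomial (Fin 2) R :=
  MvPolynomial.rename (Equiv.swap (0 : Fin 2) 1)

lemma swp_X0 (R : Type*) [CommRing R] : swp R (MvPolynomial.X 0) = MvPolynomial.X 1 := by
  unfold swp
  rw [MvPolynomial.rename_X]
  rfl

lemma swp_X1 (R : Type*) [CommRing R] : swp R (MvPolynomial.X 1) = MvPolynomial.X 0 := by
  unfold swp
  rw [MvPolynomial.rename_X]
  rfl

lemma map_swp {R S : Type*} [CommRing R] [CommRing S] (φ : R →+* S)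
    (g : MvPolynomial (Fin 2) R) : MvPolynomial.map φ (swp R g) = swp S (MvPolynomial.map φ g) := by
  unfold swp
  rw [MvPolynomial.map_rename]

lemma aeval_swp {L : Type*} [Field L] (u v : Polynomial L) (g : MvPolynomial (Fin 2) L) :
    MvPolynomial.aeval ![u, v] (swp L g) = MvPolynomial.aeval ![v, u] g := by
  unfold swp
  rw [MvPolynomial.aeval_rename]
  congr 1
  congr 1
  funext i
  fin_cases i <;> rfl

lemma aeval_comp' {L : Type*} [Field L] (u v G : Polynomial L) (g : MvPolynomial (Fin 2) L) :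
    (MvPolynomial.aeval ![u, v] g).comp G = MvPolynomial.aeval ![u.comp G, v.comp G] g := by
  have e : (Polynomial.aeval G : Polynomial L →ₐ[L] Polynomial L).comp
      (MvPolynomial.aeval ![u, v]) = MvPolynomial.aeval ![u.comp G, v.comp G] := by
    apply MvPolynomial.algHom_ext
    intro i
    rw [AlgHom.comp_apply, MvPolynomial.aeval_X, MvPolynomial.aeval_X]
    fin_cases i <;> rfl
  exact congrArg (fun φ : MvPolynomial (Fin 2) L →ₐ[L] Polynomial L => φ g) e

lemma special_swap (n : ℕ) (hn : 2 ≤ n) (a : ℂ) (F : Polynomial (RatFunc ℂ)) (h0 : F.coeff 0 = 0)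
    (h1 : F.coeff 1 ≠ 0) : ∃ G : Polynomial (RatFunc ℂ), G.coeff 0 = 0 ∧ G.natDegree < n ∧
      ∀ G0 G1 : MvPolynomial (Fin 2) ℂ, Special (fam j0 n F) a G0 G1 →
        Special (fam j0 n G) a (swp ℂ G0) (swp ℂ G1) := by
  obtain ⟨G₁, hG0, hG⟩ := exists_inv F h0 h1 (n - 1)
  rw [show n - 1 + 1 = n by omega] at hG
  have hmon : ((Polynomial.X : Polynomial (RatFunc ℂ)) ^ n).Monic := Polynomial.monic_X_pow n
  obtain ⟨G, hGd⟩ : ∃ G, G = G₁ %ₘ (Polynomial.X ^ n) := ⟨_, rfl⟩
  have hGG : (Polynomial.X : Polynomial (RatFunc ℂ)) ^ n ∣ G - G₁ := by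
    refine ⟨-(G₁ /ₘ (Polynomial.X ^ n)), ?_⟩
    have := Polynomial.modByMonic_add_div G₁ ((Polynomial.X : Polynomial (RatFunc ℂ)) ^ n)
    rw [hGd]
    linear_combination this
  have hG0' : G.coeff 0 = 0 := by
    have h2 := (Polynomial.X_pow_dvd_iff.1 hGG) 0 (by omega)
    rw [Polynomial.coeff_sub, hG0, sub_zero] at h2
    exact h2
  have hG2 : (Polynomial.X : Polynomial (RatFunc ℂ)) ^ n ∣ F.comp G - Polynomial.X := by
    have h3 := comp_congr n F G G₁ hGG
    have h4 := dvd_add h3 hG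
    have e : F.comp G - F.comp G₁ + (F.comp G₁ - Polynomial.X) = F.comp G - Polynomial.X := by ring
    rwa [e] at h4
  refine ⟨G, hG0', ?_, ?_⟩
  · have h5 := Polynomial.natDegree_modByMonic_lt G₁ hmon (by
      intro h
      have h6 := congrArg Polynomial.natDegree h
      rw [Polynomial.natDegree_X_pow, Polynomial.natDegree_one] at h6
      omega)
    rw [Polynomial.natDegree_X_pow] at h5
    rw [hGd]
    exact h5
  · rintro G0 G1 ⟨r, hr⟩
    refine ⟨swp _ r, ?_⟩
    have e1 : MvPolynomial.map Polynomial.C (swp ℂ G0) +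
        MvPolynomial.C (Polynomial.X - Polynomial.C a) * MvPolynomial.map Polynomial.C (swp ℂ G1) +
        MvPolynomial.C ((Polynomial.X - Polynomial.C a) ^ 2) * swp (Polynomial ℂ) r =
        swp (Polynomial ℂ) (MvPolynomial.map Polynomial.C G0 +
          MvPolynomial.C (Polynomial.X - Polynomial.C a) * MvPolynomial.map Polynomial.C G1 +
          MvPolynomial.C ((Polynomial.X - Polynomial.C a) ^ 2) * r) := by
      have hC : ∀ c : Polynomial ℂ, swp (Polynomial ℂ) (MvPolynomial.C c) = MvPolynomial.C c :=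
        fun c => (swp (Polynomial ℂ)).commutes c
      rw [map_add, map_add, map_mul, map_mul, hC, hC, map_swp, map_swp]
    rw [e1]
    rw [mem_fam_iff] at hr ⊢
    rw [map_swp, aeval_swp]
    set P := MvPolynomial.map j0 (MvPolynomial.map Polynomial.C G0 +
          MvPolynomial.C (Polynomial.X - Polynomial.C a) * MvPolynomial.map Polynomial.C G1 +
          MvPolynomial.C ((Polynomial.X - Polynomial.C a) ^ 2) * r) with hP
    obtain ⟨q, hq⟩ := hr
    have h6 := aeval_comp' F Polynomial.X G P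
    rw [hq, Polynomial.mul_comp, Polynomial.X_pow_comp, Polynomial.X_comp] at h6
    have h7 : (Polynomial.X : Polynomial (RatFunc ℂ)) ^ n ∣
        MvPolynomial.aeval ![F.comp G, G] P := by
      rw [← h6]
      exact Dvd.dvd.mul_right (pow_dvd_pow_of_dvd (Polynomial.X_dvd_iff.2 hG0') n) _
    have h8 := aeval_congr n ![Polynomial.X, G] ![F.comp G, G] (by
      intro i
      fin_cases i
      · show (Polynomial.X : Polynomial (RatFunc ℂ)) ^ n ∣ Polynomial.X - F.comp G
        have := (dvd_neg (a := (Polynomial.X : Polynomial (RatFunc ℂ)) ^ n)).2 hG2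
        rwa [neg_sub] at this
      · show (Polynomial.X : Polynomial (RatFunc ℂ)) ^ n ∣ G - G
        rw [sub_self]
        exact dvd_zero _) P
    have h9 := dvd_add h8 h7
    rwa [sub_add_cancel] at h9

lemma arc_swap (n : ℕ) (hn : 2 ≤ n) (a : ℂ) {ι : Type} (G0 G1 : ι → MvPolynomial (Fin 2) ℂ)
    (H : Arc n a G0 G1) : Arc n a (fun i => swp ℂ (G0 i)) (fun i => swp ℂ (G1 i)) := by
  obtain ⟨F, hF0, -, hF1, hs⟩ := special_of_arc n hn a G0 G1 H
  obtain ⟨G, hG0, hGn, hG⟩ := special_swap n hn a F hF0 hF1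
  exact arc_of_special n a _ _ G hG0 hGn fun i => hG _ _ (hs i)

lemma swp_swp (g : MvPolynomial (Fin 2) ℂ) : swp ℂ (swp ℂ g) = g := by
  unfold swp
  rw [MvPolynomial.rename_rename]
  have : ((Equiv.swap (0 : Fin 2) 1 : Fin 2 → Fin 2) ∘ (Equiv.swap (0 : Fin 2) 1)) = id := by
    funext i
    simp
  rw [this, MvPolynomial.rename_id]
  rfl

lemma mem_sw (K : Ideal (MvPolynomial (Fin 2) ℂ)) (g : MvPolynomial (Fin 2) ℂ) :
    swp ℂ g ∈ sw K ↔ g ∈ K := by
  constructor
  · intro hg
    have h1 : swp ℂ (swp ℂ g) ∈ sw (sw K) := Ideal.mem_map_of_mem _ hg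
    rwa [sw_sw, swp_swp] at h1
  · intro hg
    exact Ideal.mem_map_of_mem _ hg

theorem good_sw (n : ℕ) (hn : 2 ≤ n) (K : Ideal (MvPolynomial (Fin 2) ℂ)) (hK : Good n K) :
    Good n (sw K) := by
  obtain ⟨m, G0, G1, hG0, ⟨i, hi⟩, harc⟩ := hK
  refine ⟨m, fun i => swp ℂ (G0 i), fun i => swp ℂ (G1 i), ?_, ⟨i, ?_⟩,
    fun a => arc_swap n hn a G0 G1 (harc a)⟩
  · rw [← hG0]
    unfold sw
    rw [Ideal.map_span, ← Set.range_comp]
    rfl
  · rw [mem_sw]
    exact hi

end Pool.Agent.Y756.HB
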