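import Mathlib
import Pool.Agent.Y756.HB.All
import Pool.Agent.Y756.HB.Main3
import Pool.Agent.Y756.HB.Swap

set_option autoImplicit false

/-! One smooth rational curve through all monomial ideals and through finitely many good ideals at
given points of the line. -/

namespace Pool.Agent.Y756.HB

open MP4403b8

lemma exists_pts' {r s : Type} [Finite r] [Finite s] (a : r → ℂ) :
    ∃ b : s → ℂ, Function.Injective b ∧ ∀ i j, a j ≠ b i := by
  have h1 : ((Set.range a)ᶜ).Infinite := (Set.finite_range a).infinite_compl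
  have h2 : Infinite ((Set.range a)ᶜ : Set ℂ) := h1.to_subtype
  let e := Infinite.natEmbedding ((Set.range a)ᶜ : Set ℂ)
  refine ⟨fun i => (e (Finite.equivFin s i : ℕ)).1, ?_, ?_⟩
  · intro i j hij
    have h3 := e.injective (Subtype.ext hij)
    exact (Finite.equivFin s).injective (Fin.ext h3)
  · intro i j hij
    exact (e (Finite.equivFin s i : ℕ)).2 ⟨j, hij⟩

lemma Col_one (n : ℕ) : Col n 1 = Ideal.span {MvPolynomial.X 1, MvPolynomial.X 0 ^ n} := by
  unfold Col
  congr 1
  ext g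
  simp
  exact or_comm

theorem full2 (n : ℕ) (hn : 4 ≤ n) {r : Type} [Finite r]
    (K : r → Ideal (MvPolynomial (Fin 2) ℂ)) (a : r → ℂ)
    (hH : ∀ j, IsHilbPoint n ℂ (K j)) (gK : ∀ j, Good n (K j)) (cK : ∀ j, K j ≠ Col n 1)
    (hi : Function.Injective K) (ha : Function.Injective a) :
    ∃ F : P1Family n, F.IsClosedEmbedding ∧
      (∀ I : Ideal (MvPolynomial (Fin 2) ℂ), IsHilbPoint n ℂ I → IsMonomialIdeal I →
        I ∈ Set.range F.value) ∧
      (∀ j, F.value ((a j : ℂ) : OnePoint ℂ) = K j) ∧ F.value OnePoint.infty = Col n 1 := by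
  classical
  let s : Type := {I : Ideal (MvPolynomial (Fin 2) ℂ) //
    (IsHilbPoint n ℂ I ∧ IsMonomialIdeal I) ∧
      (MvPolynomial.X 1 : MvPolynomial (Fin 2) ℂ) ∉ I ∧ I ∉ Set.range K}
  have hfin : Finite s := ((finite_mon n).subset (fun I (hI : (IsHilbPoint n ℂ I ∧
    IsMonomialIdeal I) ∧ (MvPolynomial.X 1 : MvPolynomial (Fin 2) ℂ) ∉ I ∧
      I ∉ Set.range K) => hI.1)).to_subtype
  obtain ⟨b, hb, hab⟩ := exists_pts' (r := r) (s := s) a
  have : Fintype (r ⊕ s) := Fintype.ofFinite _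
  let L : r ⊕ s → Ideal (MvPolynomial (Fin 2) ℂ) := Sum.elim K (fun I => I.1)
  let pt : r ⊕ s → ℂ := Sum.elim a b
  obtain ⟨F, hF, hv, hc⟩ := interp_main3 n hn L
    (by
      rintro (j | I) (j' | I') hjj
      · exact congrArg Sum.inl (hi hjj)
      · exact absurd ⟨j, hjj⟩ I'.2.2.2
      · exact absurd ⟨j', hjj.symm⟩ I.2.2.2
      · exact congrArg Sum.inr (Subtype.ext hjj))
    (by
      rintro (j | I)
      · exact hH j
      · exact I.2.1.1)
    (by
      rintro (j | I)
      · exact gK j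
      · exact good_mon n (by omega) I.1 I.2.1.1 I.2.1.2)
    (by
      rintro (j | I)
      · exact cK j
      · intro hI
        apply I.2.2.1
        have h1 := X1_mem_Col n 1 one_ne_zero
        rw [← hI] at h1
        exact h1)
    pt
    (by
      rintro (j | I) (j' | I') hjj
      · exact congrArg Sum.inl (ha hjj)
      · exact absurd hjj (hab I' j)
      · exact absurd hjj.symm (hab I j')
      · exact congrArg Sum.inr (hb hjj))
  refine ⟨F, hF, fun I hI mI => ?_, fun j => hv (Sum.inl j), hc⟩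
  by_cases h1 : (MvPolynomial.X 1 : MvPolynomial (Fin 2) ℂ) ∈ I
  · rw [aux_col (by omega) hI mI h1]
    exact ⟨OnePoint.infty, hc⟩
  · by_cases h2 : I ∈ Set.range K
    · obtain ⟨j, rfl⟩ := h2
      exact ⟨_, hv (Sum.inl j)⟩
    · exact ⟨_, hv (Sum.inr ⟨I, ⟨hI, mI⟩, h1, h2⟩)⟩

/-- reduction of the parameter modulo a power of `X` -/
lemma special_mod (n : ℕ) (hn : 1 ≤ n) (a : ℂ) (F : Polynomial (RatFunc ℂ)) (h0 : F.coeff 0 = 0) :
    ∃ G : Polynomial (RatFunc ℂ), G.coeff 0 = 0 ∧ G.natDegree < n ∧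
      ∀ G0 G1 : MvPolynomial (Fin 2) ℂ, Special (fam j0 n F) a G0 G1 →
        Special (fam j0 n G) a G0 G1 := by
  have hmon : ((Polynomial.X : Polynomial (RatFunc ℂ)) ^ n).Monic := Polynomial.monic_X_pow n
  obtain ⟨G, hGd⟩ : ∃ G, G = F %ₘ (Polynomial.X ^ n) := ⟨_, rfl⟩
  have hGG : (Polynomial.X : Polynomial (RatFunc ℂ)) ^ n ∣ G - F := by
    refine ⟨-(F /ₘ (Polynomial.X ^ n)), ?_⟩
    have := Polynomial.modByMonic_add_div F ((Polynomial.X : Polynomial (RatFunc ℂ)) ^ n)
    rw [hGd]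
    linear_combination this
  have hG0 : G.coeff 0 = 0 := by
    have h2 := (Polynomial.X_pow_dvd_iff.1 hGG) 0 (by omega)
    rw [Polynomial.coeff_sub, h0, sub_zero] at h2
    exact h2
  refine ⟨G, hG0, ?_, ?_⟩
  · have h5 := Polynomial.natDegree_modByMonic_lt F hmon (by
      intro h
      have h6 := congrArg Polynomial.natDegree h
      rw [Polynomial.natDegree_X_pow, Polynomial.natDegree_one] at h6
      omega)
    rw [Polynomial.natDegree_X_pow] at h5
    rw [hGd]
    exact h5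
  · rintro G0 G1 ⟨r, hr⟩
    refine ⟨r, ?_⟩
    rw [mem_fam_iff] at hr ⊢
    have h8 := aeval_congr n ![G, Polynomial.X] ![F, Polynomial.X] (by
      intro i
      fin_cases i
      · exact hGG
      · show (Polynomial.X : Polynomial (RatFunc ℂ)) ^ n ∣ Polynomial.X - Polynomial.X
        rw [sub_self]
        exact dvd_zero _) (MvPolynomial.map j0 (MvPolynomial.map Polynomial.C G0 +
          MvPolynomial.C (Polynomial.X - Polynomial.C a) * MvPolynomial.map Polynomial.C G1 +
          MvPolynomial.C ((Polynomial.X - Polynomial.C a) ^ 2) * r))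
    have h9 := dvd_add h8 hr
    rwa [sub_add_cancel] at h9

theorem arc_shear2 (n : ℕ) (hn : 2 ≤ n) (a : ℂ) (h : Polynomial ℂ) (h0 : h.coeff 0 = 0)
    {ι : Type} (G0 G1 : ι → MvPolynomial (Fin 2) ℂ) (H : Arc n a G0 G1) :
    Arc n a (fun i => shear h (G0 i)) (fun i => shear h (G1 i)) := by
  obtain ⟨F, hF0, -, -, hs⟩ := special_of_arc n hn a G0 G1 H
  obtain ⟨G, hG0, hGn, hG⟩ := special_mod n (by omega) a (F + h.map RatFunc.C) (by
    rw [Polynomial.coeff_add, hF0, Polynomial.coeff_map, h0, map_zero, add_zero])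
  refine arc_of_special n a _ _ G hG0 hGn fun i => hG _ _ ?_
  obtain ⟨r, hr⟩ := hs i
  refine ⟨shR Polynomial.C h r, ?_⟩
  rw [mem_fam_iff] at hr ⊢
  have e1 : MvPolynomial.map Polynomial.C (shear h (G0 i)) +
      MvPolynomial.C (Polynomial.X - Polynomial.C a) * MvPolynomial.map Polynomial.C (shear h (G1 i)) +
      MvPolynomial.C ((Polynomial.X - Polynomial.C a) ^ 2) * shR Polynomial.C h r =
      shR Polynomial.C h (MvPolynomial.map Polynomial.C (G0 i) +
        MvPolynomial.C (Polynomial.X - Polynomial.C a) * MvPolynomial.map Polynomial.C (G1 i) +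
        MvPolynomial.C ((Polynomial.X - Polynomial.C a) ^ 2) * r) := by
    rw [map_add, map_add, map_mul, map_mul, shR_C, shR_C, map_shear, map_shear]
  have e2 : j0.comp Polynomial.C = RatFunc.C := RingHom.ext fun c => rfl
  rw [e1, map_shR, e2, aeval_shR]
  exact hr

theorem good_shear2 (n : ℕ) (hn : 2 ≤ n) (h : Polynomial ℂ) (h0 : h.coeff 0 = 0)
    (K : Ideal (MvPolynomial (Fin 2) ℂ)) (hK : Good n K) : Good n (shI h K) := by
  obtain ⟨m, G0, G1, hG0, ⟨i, hi⟩, harc⟩ := hK
  refine ⟨m, fun i => shear h (G0 i), fun i => shear h (G1 i), ?_, ⟨i, ?_⟩,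
    fun a => arc_shear2 n hn a h h0 G0 G1 (harc a)⟩
  · rw [← hG0]
    unfold shI
    rw [Ideal.map_span, ← Set.range_comp]
    rfl
  · rw [mem_shI]
    exact hi

end Pool.Agent.Y756.HB
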